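import Pool.Agent.helper52.ZA.Quot

/-!
# Combination: only the bad components matter
-/

namespace Pool.Agent.helper52.ZA

open Finset Pool.Agent.helper52.DJ Pool.Agent.helper52.DM

universe u

variable {V : Type u} {A : Type*} [Fintype V] [DecidableEq V] [Fintype A] [DecidableEq A]

/-- representatives -/
structure IsRep (D : DG V A) (w : A → ℕ) (r : V → V) : Prop where
  conn : ∀ v, Conn D w v (r v)
  eq : ∀ u v, Conn D w u v → r u = r v

omit [DecidableEq A] in
lemma cmap_bad (D : DG V A) (w : A → ℕ) (r : V → V) {v : V} (h : v ∈ bad D w) : cmap D w r v = v := if_pos h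

omit [DecidableEq A] in
lemma cmap_good (D : DG V A) (w : A → ℕ) (r : V → V) {v : V} (h : v ∉ bad D w) : cmap D w r v = r v := if_neg h

lemma rep_notMem (D : DG V A) (w : A → ℕ) {r : V → V} (hr : IsRep D w r) {v : V} (h : v ∉ bad D w) :
    r v ∉ bad D w := fun h' => h ((bad_conn D w (hr.conn v)).2 h')

lemma cmap_idem (D : DG V A) (w : A → ℕ) {r : V → V} (hr : IsRep D w r) (v : V) :
    cmap D w r (cmap D w r v) = cmap D w r v := by
  by_cases h : v ∈ bad D w
  · rw [cmap_bad D w r h, cmap_bad D w r h]
  · rw [cmap_good D w r h, cmap_good D w r (rep_notMem D w hr h)]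
    exact (hr.eq _ _ (hr.conn v)).symm

lemma dem_bad (D : DG V A) (w : A → ℕ) {r : V → V} (hr : IsRep D w r)
    (n : {v : V // cmap D w r v = v}) (hn : (n : V) ∈ bad D w) :
    (qD D (cmap D w r) (cmap_idem D w hr)).dem w n = D.dem w n := by
  rw [dem_q]
  have e : univ.filter (fun v => qm (cmap D w r) (cmap_idem D w hr) v = n) = {(n : V)} := by
    ext v
    simp only [mem_filter, mem_univ, true_and, mem_singleton, Subtype.ext_iff, qm]
    constructor
    · intro h
      by_cases hv : v ∈ bad D w
      · rwa [cmap_bad D w r hv] at h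
      · rw [cmap_good D w r hv] at h
        exact absurd hn (h ▸ rep_notMem D w hr hv)
    · rintro rfl
      exact n.2
  rw [e, sum_singleton]

lemma dem_good (D : DG V A) (w : A → ℕ) {r : V → V} (hr : IsRep D w r)
    (n : {v : V // cmap D w r v = v}) (hn : (n : V) ∉ bad D w) :
    (qD D (cmap D w r) (cmap_idem D w hr)).dem w n = 0 := by
  rw [dem_q]
  simp only [DG.dem]
  apply sum_net_closed D w (fun a => (w a : ℤ)) (fun a => Int.natCast_nonneg _) (fun a => le_rfl)
  intro a ha
  have hc : Conn D w (D.tail a) (D.head a) := Relation.EqvGen.rel _ _ ⟨a, ha, rfl, rfl⟩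
  simp only [mem_filter, mem_univ, true_and, Subtype.ext_iff, qm]
  by_cases ht : D.tail a ∈ bad D w
  · have hh := (bad_conn D w hc).1 ht
    rw [cmap_bad D w r ht, cmap_bad D w r hh]
    constructor
    · intro h; exact absurd (h ▸ ht) hn
    · intro h; exact absurd (h ▸ hh) hn
  · have hh : D.head a ∉ bad D w := fun h => ht ((bad_conn D w hc).2 h)
    rw [cmap_good D w r ht, cmap_good D w r hh, hr.eq _ _ hc]

/-- sums over the quotient of functions of the demands -/
lemma sum_q (D : DG V A) (w : A → ℕ) {r : V → V} (hr : IsRep D w r) (F : ℤ → ℤ) (hF : F 0 = 0) :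
    ∑ n, F ((qD D (cmap D w r) (cmap_idem D w hr)).dem w n) = ∑ v ∈ bad D w, F (D.dem w v) := by
  classical
  have e1 : ∀ n : {v : V // cmap D w r v = v}, F ((qD D (cmap D w r) (cmap_idem D w hr)).dem w n)
      = if (n : V) ∈ bad D w then F (D.dem w n) else 0 := by
    intro n
    split_ifs with h
    · rw [dem_bad D w hr n h]
    · rw [dem_good D w hr n h, hF]
  rw [sum_congr rfl fun n _ => e1 n]
  rw [← sum_subtype (p := fun v => cmap D w r v = v) (univ.filter fun v => cmap D w r v = v)
    (fun v => by simp) (fun v => if v ∈ bad D w then F (D.dem w v) else 0), ← sum_filter]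
  congr 1
  ext v
  simp only [mem_filter, mem_univ, true_and]
  constructor
  · exact fun h => h.2
  · exact fun h => ⟨cmap_bad D w r h, h⟩

/-- the combination of a decomposition for the quotient with the local ones -/
theorem combine (D : DG V A) (w : A → ℕ) (τ : ℕ) (hτ : 2 ≤ τ)
    (hcut : ∀ U, D.IsShore U → τ ≤ D.wt w U) {r : V → V} (hr : IsRep D w r) (cs cs' : A → ℕ)
    (h1 : ∀ a, w a = cs a + cs' a)
    (h2 : ∀ U, (qD D (cmap D w r) (cmap_idem D w hr)).IsShore U →
      1 ≤ (qD D (cmap D w r) (cmap_idem D w hr)).wt cs U)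
    (h3 : ∀ U, (qD D (cmap D w r) (cmap_idem D w hr)).IsShore U →
      τ - 1 ≤ (qD D (cmap D w r) (cmap_idem D w hr)).wt cs' U) :
    ∃ c c' : A → ℕ, (∀ a, w a = c a + c' a) ∧ (∀ U, D.IsShore U → 1 ≤ D.wt c U) ∧
      (∀ U, D.IsShore U → τ - 1 ≤ D.wt c' U) := by
  classical
  obtain ⟨cl, cl', g1, g2⟩ := glue_local (fun V' _ _ D w X Y τ hτ h => core w τ hτ _ V' D X Y rfl h) D w
    ((univ.filter fun a => w a = 0).image D.tail) ((univ.filter fun a => w a = 0).image D.head) τ hτ (by
      intro U hne hnu hpos hok
      refine hcut U ⟨hne, hnu, fun a ha => ?_⟩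
      rcases Nat.eq_zero_or_pos (w a) with h0 | h0
      · rcases hok with hok | hok
        · exact absurd (mem_image_of_mem _ (by rw [mem_filter]; exact ⟨mem_univ _, h0⟩))
            (disjoint_left.1 hok ha)
        · exact hok (mem_image_of_mem _ (by rw [mem_filter]; exact ⟨mem_univ _, h0⟩))
      · exact hpos a h0 ha)
  have key : ∀ U, D.IsShore U →
      1 ≤ D.wt (fun a => if D.tail a ∈ bad D w then cs a else cl a) U ∧
      τ - 1 ≤ D.wt (fun a => if D.tail a ∈ bad D w then cs' a else cl' a) U := by
    intro U hU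
    by_cases hcase : ∃ u ∈ U, ∃ v, v ∉ U ∧ Conn D w u v ∧ u ∉ bad D w
    · obtain ⟨u, hu, v, hv, huv, hub⟩ := hcase
      have halt : (∀ y ∈ (univ.filter fun a => w a = 0).image D.head, Conn D w u y → y ∉ U) ∨
          (∀ x ∈ (univ.filter fun a => w a = 0).image D.tail, Conn D w u x → x ∈ U) := by
        by_contra hcon
        push Not at hcon
        obtain ⟨⟨y, hy, hy1, hy2⟩, x, hx, hx1, hx2⟩ := hcon
        obtain ⟨b, hb, rfl⟩ := mem_image.1 hy
        obtain ⟨a, ha, rfl⟩ := mem_image.1 hx
        apply hub
        rw [mem_bad]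
        refine ⟨a, b, (mem_filter.1 ha).2, (mem_filter.1 hb).2, hx1, hy1, fun h => ?_⟩
        exact hx2 (mem_of_dreach D h U hU hy2)
      obtain ⟨k1, k2⟩ := g2 U hU u hu v hv huv halt
      have mono : ∀ x y : A → ℕ, D.wt (part D w u y) U
          ≤ D.wt (fun a => if D.tail a ∈ bad D w then x a else y a) U := by
        intro x y
        rw [DG.wt, DG.wt]
        refine sum_le_sum fun a _ => ?_
        rw [part]
        split_ifs with p q q
        · exact absurd ((bad_conn D w p).2 q) hub
        · exact le_rfl
        · exact Nat.zero_le _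
        · exact Nat.zero_le _
      exact ⟨k1.trans (mono cs cl), k2.trans (mono cs' cl')⟩
    · push Not at hcase
      set U' : Finset {v : V // cmap D w r v = v} := univ.filter fun n => (n : V) ∈ U with hU'
      have e : qpre (cmap D w r) (cmap_idem D w hr) U' = U := by
        ext v
        rw [mem_qpre, hU', mem_filter]
        simp only [mem_univ, true_and, qm]
        by_cases hv : v ∈ bad D w
        · rw [cmap_bad D w r hv]
        · rw [cmap_good D w r hv]
          constructor
          · intro h
            by_contra hcon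
            exact rep_notMem D w hr hv (hcase _ h v hcon (conn_symm D w (hr.conn v)))
          · intro h
            by_contra hcon
            exact hv (hcase v h _ hcon (hr.conn v))
      have hS : (qD D (cmap D w r) (cmap_idem D w hr)).IsShore U' := by
        rw [shore_q, e]; exact hU
      have k1 := h2 U' hS
      have k2 := h3 U' hS
      rw [wt_q, e] at k1 k2
      have mono : ∀ x y : A → ℕ, (∀ a, x a ≤ w a) → D.wt x U
          ≤ D.wt (fun a => if D.tail a ∈ bad D w then x a else y a) U := by
        intro x y hx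
        rw [DG.wt, DG.wt]
        refine sum_le_sum fun a ha => ?_
        rcases Nat.eq_zero_or_pos (w a) with h0 | h0
        · have := hx a
          have : x a = 0 := by omega
          rw [this]; exact Nat.zero_le _
        · rw [DG.out, mem_filter] at ha
          have hc : Conn D w (D.tail a) (D.head a) := Relation.EqvGen.rel _ _ ⟨a, h0, rfl, rfl⟩
          rw [if_pos (hcase _ ha.2.1 _ ha.2.2 hc)]
      exact ⟨k1.trans (mono cs cl fun a => by have := h1 a; omega),
        k2.trans (mono cs' cl' fun a => by have := h1 a; omega)⟩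
  refine ⟨_, _, fun a => ?_, fun U hU => (key U hU).1, fun U hU => (key U hU).2⟩
  split_ifs
  · exact h1 a
  · exact g1 a

end Pool.Agent.helper52.ZA
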