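import Pool.Agent.helper52.ZA.Defs

/-!
# Gluing the components of the positive-weight graph
-/

namespace Pool.Agent.helper52.ZA

open Finset Pool.Agent.helper52.DJ Pool.Agent.helper52.DM

universe u

section loc
variable {V : Type u} {A : Type*} [Fintype V] [DecidableEq V] [Fintype A] [DecidableEq A]

/-- retraction to a set with a base point -/
def rt (K : Finset V) (v0 : V) (h0 : v0 ∈ K) (v : V) : {v : V // v ∈ K} :=
  if h : v ∈ K then ⟨v, h⟩ else ⟨v0, h0⟩

/-- the local digraph -/
def locD (D : DG V A) (K : Finset V) (v0 : V) (h0 : v0 ∈ K) : DG {v : V // v ∈ K} A :=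
  ⟨fun a => rt K v0 h0 (D.tail a), fun a => rt K v0 h0 (D.head a)⟩

/-- the local weights -/
def locw (D : DG V A) (w : A → ℕ) (K : Finset V) (a : A) : ℕ := if D.tail a ∈ K then w a else 0

/-- no arc of positive weight joins `K` to its complement -/
def Iso (D : DG V A) (w : A → ℕ) (K : Finset V) : Prop := ∀ a, 0 < w a → (D.tail a ∈ K ↔ D.head a ∈ K)

/-- the trace on `K` -/
def tr (K U : Finset V) : Finset {v : V // v ∈ K} := univ.filter fun v => (v : V) ∈ U

omit [Fintype V] in
lemma mem_tr (K U : Finset V) (v : {v : V // v ∈ K}) : v ∈ tr K U ↔ (v : V) ∈ U := by simp [tr]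

omit [Fintype V] in
lemma rt_mem (K U : Finset V) (v0 : V) (h0 : v0 ∈ K) {v : V} (h : v ∈ K) : rt K v0 h0 v ∈ tr K U ↔ v ∈ U := by
  rw [mem_tr, rt, dif_pos h]

omit [Fintype V] [DecidableEq A] in
/-- local and global weights, for `x ≤ w` -/
lemma loc_wt_le (D : DG V A) (w x : A → ℕ) (K : Finset V) (v0 : V) (h0 : v0 ∈ K) (hK : Iso D w K)
    (hx : ∀ a, x a ≤ locw D w K a) (y : A → ℕ) (hxy : ∀ a, D.tail a ∈ K → x a ≤ y a) (U : Finset V) :
    (locD D K v0 h0).wt x (tr K U) ≤ D.wt y U := by
  rw [DG.wt, DG.wt, DG.out, DG.out, sum_filter, sum_filter]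
  refine sum_le_sum fun a _ => ?_
  by_cases hx0 : x a = 0
  · simp [hx0]
  · have h1 : D.tail a ∈ K := by
      by_contra hcon
      have := hx a
      rw [locw, if_neg hcon] at this
      omega
    have h2 : 0 < w a := by
      have := hx a
      rw [locw, if_pos h1] at this
      omega
    have h3 : D.head a ∈ K := (hK a h2).1 h1
    simp only [locD, rt_mem K U v0 h0 h1, rt_mem K U v0 h0 h3]
    split_ifs
    · exact hxy a h1
    · exact le_rfl

omit [Fintype V] [DecidableEq A] in
/-- the global weight of a set that agrees with `U` on `K` and is trivial outside -/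
lemma loc_wt_eq (D : DG V A) (w : A → ℕ) (K : Finset V) (v0 : V) (h0 : v0 ∈ K) (hK : Iso D w K)
    (U : Finset V) (hU : U ⊆ K ∨ ∀ v, v ∉ K → v ∈ U) :
    D.wt w U = (locD D K v0 h0).wt (locw D w K) (tr K U) := by
  rw [DG.wt, DG.wt, DG.out, DG.out, sum_filter, sum_filter]
  refine sum_congr rfl fun a _ => ?_
  by_cases hw : w a = 0
  · simp [locw, hw]
  · have h2 : 0 < w a := by omega
    by_cases h1 : D.tail a ∈ K
    · have h3 : D.head a ∈ K := (hK a h2).1 h1
      simp only [locD, rt_mem K U v0 h0 h1, rt_mem K U v0 h0 h3, locw, if_pos h1]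
    · have h3 : D.head a ∉ K := fun h => h1 ((hK a h2).2 h)
      have e : locw D w K a = 0 := by rw [locw, if_neg h1]
      rw [e]
      have : ¬ (D.tail a ∈ U ∧ D.head a ∉ U) := by
        rintro ⟨h4, h5⟩
        rcases hU with hU | hU
        · exact h1 (hU h4)
        · exact h5 (hU _ h3)
      simp [this]

end loc

variable {V : Type u} {A : Type*} [Fintype V] [DecidableEq V] [Fintype A] [DecidableEq A]

open Classical in
/-- the component of a vertex -/
noncomputable def comp (D : DG V A) (w : A → ℕ) (v0 : V) : Finset V := univ.filter fun v => Conn D w v0 v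

omit [DecidableEq V] [Fintype A] [DecidableEq A] in
lemma mem_comp (D : DG V A) (w : A → ℕ) (v0 v : V) : v ∈ comp D w v0 ↔ Conn D w v0 v := by simp [comp]

omit [Fintype V] [DecidableEq V] [Fintype A] [DecidableEq A] in
lemma conn_refl (D : DG V A) (w : A → ℕ) (v : V) : Conn D w v v := Relation.EqvGen.refl v

omit [Fintype V] [DecidableEq V] [Fintype A] [DecidableEq A] in
lemma conn_symm (D : DG V A) (w : A → ℕ) {u v : V} (h : Conn D w u v) : Conn D w v u :=
  Relation.EqvGen.symm _ _ h

omit [Fintype V] [DecidableEq V] [Fintype A] [DecidableEq A] in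
lemma conn_trans (D : DG V A) (w : A → ℕ) {u v x : V} (h : Conn D w u v) (h' : Conn D w v x) :
    Conn D w u x := Relation.EqvGen.trans _ _ _ h h'

omit [DecidableEq V] [Fintype A] [DecidableEq A] in
lemma comp_eq (D : DG V A) (w : A → ℕ) {u v : V} (h : Conn D w u v) : comp D w u = comp D w v := by
  ext x
  rw [mem_comp, mem_comp]
  exact ⟨fun h' => conn_trans D w (conn_symm D w h) h', fun h' => conn_trans D w h h'⟩

omit [DecidableEq V] [Fintype A] [DecidableEq A] in
lemma comp_iso (D : DG V A) (w : A → ℕ) (v0 : V) : Iso D w (comp D w v0) := by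
  intro a ha
  have h : Conn D w (D.tail a) (D.head a) := Relation.EqvGen.rel _ _ ⟨a, ha, rfl, rfl⟩
  rw [mem_comp, mem_comp]
  exact ⟨fun h' => conn_trans D w h' h, fun h' => conn_trans D w h' (conn_symm D w h)⟩

open Classical in
/-- the part of `x` in the component of `u` -/
noncomputable def part (D : DG V A) (w : A → ℕ) (u : V) (x : A → ℕ) (a : A) : ℕ :=
  if Conn D w u (D.tail a) then x a else 0

omit [DecidableEq A] in
theorem glue_local
    (hcore : ∀ (V' : Type u) [Fintype V'] [DecidableEq V'] (D : DG V' A) (w : A → ℕ) (X Y : Finset V') (τ : ℕ),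
      2 ≤ τ → (∀ U, Sh D w X Y U → τ ≤ D.wt w U) → ∃ c, IsDec D w X Y τ c)
    (D : DG V A) (w : A → ℕ) (X Y : Finset V) (τ : ℕ) (hτ : 2 ≤ τ)
    (hXY : ∀ U : Finset V, U.Nonempty → U ≠ univ → (∀ a, 0 < w a → D.head a ∈ U → D.tail a ∈ U) →
      (Disjoint U Y ∨ X ⊆ U) → τ ≤ D.wt w U) :
    ∃ c c' : A → ℕ, (∀ a, w a = c a + c' a) ∧
      ∀ U, D.IsShore U → ∀ u ∈ U, ∀ v, v ∉ U → Conn D w u v →
        ((∀ y ∈ Y, Conn D w u y → y ∉ U) ∨ (∀ x ∈ X, Conn D w u x → x ∈ U)) →
        1 ≤ D.wt (part D w u c) U ∧ τ - 1 ≤ D.wt (part D w u c') U := by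
  classical
  -- local solutions
  have hloc : ∀ v0 : V, ∃ c : A → ℕ, IsDec (locD D (comp D w v0) v0 ((mem_comp D w v0 v0).2 (conn_refl D w v0)))
      (locw D w (comp D w v0)) (tr (comp D w v0) X) (tr (comp D w v0) Y) τ c := by
    intro v0
    set K := comp D w v0 with hKdef
    have hv0 : v0 ∈ K := (mem_comp D w v0 v0).2 (conn_refl D w v0)
    have hK : Iso D w K := comp_iso D w v0
    apply hcore _ _ _ _ _ τ hτ
    intro W hW
    -- the set in `V`
    have main : ∀ U : Finset V, tr K U = W → (U ⊆ K ∨ ∀ v, v ∉ K → v ∈ U) →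
        (Disjoint U Y ∨ X ⊆ U) → τ ≤ (locD D K v0 hv0).wt (locw D w K) W := by
      intro U hUW hU hUZ
      rw [← hUW, ← loc_wt_eq D w K v0 hv0 hK U hU]
      have hmem : ∀ v : {v : V // v ∈ K}, v ∈ W ↔ (v : V) ∈ U := by
        intro v; rw [← hUW, mem_tr]
      apply hXY
      · obtain ⟨v, hv⟩ := hW.nonempty
        exact ⟨v, (hmem v).1 hv⟩
      · intro h
        apply hW.ne_univ
        rw [eq_univ_iff_forall]
        intro v
        rw [hmem, h]
        exact mem_univ _
      · intro a ha hh
        by_cases ht : D.tail a ∈ K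
        · have hh' : D.head a ∈ K := (hK a ha).1 ht
          have := hW.closed a (by rw [locw, if_pos ht]; exact ha) (by
            rw [← hUW]
            exact (rt_mem K U v0 hv0 hh').2 hh)
          rw [← hUW] at this
          exact (rt_mem K U v0 hv0 ht).1 this
        · have hh' : D.head a ∉ K := fun h => ht ((hK a ha).2 h)
          rcases hU with hU | hU
          · exact absurd (hU hh) hh'
          · exact hU _ ht
      · exact hUZ
    rcases hW.ok with hk | hk
    · refine main (W.image Subtype.val) ?_ (Or.inl ?_) (Or.inl ?_)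
      · ext v
        rw [mem_tr]
        simp
      · intro v hv
        obtain ⟨x, _, rfl⟩ := mem_image.1 hv
        exact x.2
      · rw [disjoint_left]
        intro y hy hy'
        obtain ⟨x, hx, rfl⟩ := mem_image.1 hy
        exact disjoint_left.1 hk hx ((mem_tr K Y x).2 hy')
    · refine main (W.image Subtype.val ∪ (univ \ K)) ?_ (Or.inr ?_) (Or.inr ?_)
      · ext v
        rw [mem_tr]
        simp
      · intro v hv
        exact mem_union_right _ (mem_sdiff.2 ⟨mem_univ _, hv⟩)
      · intro x hx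
        by_cases ht : x ∈ K
        · apply mem_union_left
          have : (⟨x, ht⟩ : {v : V // v ∈ K}) ∈ W := hk ((mem_tr K X _).2 hx)
          exact mem_image.2 ⟨_, this, rfl⟩
        · exact mem_union_right _ (mem_sdiff.2 ⟨mem_univ _, ht⟩)
  choose cs hcs using hloc
  -- one representative for each component
  have hch : ∀ (K K' : Finset V) (h : ∃ r, comp D w r = K) (h' : ∃ r, comp D w r = K'), K = K' →
      Classical.choose h = Classical.choose h' := by
    rintro K _ h h' rfl
    rfl
  have hex : ∀ v, ∃ r, comp D w r = comp D w v := fun v => ⟨v, rfl⟩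
  set f : V → V := fun v => Classical.choose (hex v) with hf
  have hf1 : ∀ v, comp D w (f v) = comp D w v := fun v => Classical.choose_spec (hex v)
  have hf2 : ∀ u v, comp D w u = comp D w v → f u = f v := fun u v h => hch _ _ (hex u) (hex v) h
  set c : A → ℕ := fun a => cs (f (D.tail a)) a with hc
  have hcw : ∀ a, c a ≤ w a := by
    intro a
    have h1 := (hcs (f (D.tail a))).1 a
    have h2 : locw D w (comp D w (f (D.tail a))) a ≤ w a := by
      rw [locw]; split_ifs
      · exact le_rfl
      · exact Nat.zero_le _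
    exact h1.trans h2
  have key : ∀ U, D.IsShore U → ∀ u ∈ U, ∀ v, v ∉ U → Conn D w u v →
        ((∀ y ∈ Y, Conn D w u y → y ∉ U) ∨ (∀ x ∈ X, Conn D w u x → x ∈ U)) →
      1 ≤ D.wt (part D w u c) U ∧ τ - 1 ≤ D.wt (part D w u fun a => w a - c a) U := by
    intro U hU u hu v hv huv halt
    set r := f u with hr
    have hKu : comp D w r = comp D w u := hf1 u
    have hmemK : ∀ x, x ∈ comp D w r ↔ Conn D w u x := by
      intro x; rw [hKu, mem_comp]
    have hrK : r ∈ comp D w r := (mem_comp D w r r).2 (conn_refl D w r)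
    have hK : Iso D w (comp D w r) := comp_iso D w r
    have hSh : Sh (locD D (comp D w r) r hrK) (locw D w (comp D w r)) (tr (comp D w r) X)
        (tr (comp D w r) Y) (tr (comp D w r) U) := by
      refine ⟨⟨⟨u, (hmemK u).2 (conn_refl D w u)⟩, ?_⟩, ?_, ?_, ?_⟩
      · rw [mem_tr]; exact hu
      · intro h
        have : (⟨v, (hmemK v).2 huv⟩ : {x : V // x ∈ comp D w r}) ∈ tr (comp D w r) U := by
          rw [h]; exact mem_univ _
        rw [mem_tr] at this
        exact hv this
      · intro a ha hh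
        have ht : D.tail a ∈ comp D w r := by
          by_contra hcon
          rw [locw, if_neg hcon] at ha
          exact absurd ha (lt_irrefl 0)
        rw [locw, if_pos ht] at ha
        have hh' : D.head a ∈ comp D w r := (hK a ha).1 ht
        have h1 : D.head a ∈ U := (rt_mem _ U r hrK hh').1 hh
        exact (rt_mem _ U r hrK ht).2 (hU.2.2 a h1)
      · rcases halt with halt | halt
        · left
          rw [disjoint_left]
          intro x hx hx'
          rw [mem_tr] at hx hx'
          exact halt x hx' ((hmemK x).1 x.2) hx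
        · right
          intro x hx
          rw [mem_tr] at hx ⊢
          exact halt x hx ((hmemK x).1 x.2)
    obtain ⟨g1, g2⟩ := (hcs r).2 _ hSh
    have hce : ∀ a, D.tail a ∈ comp D w r → c a = cs r a := by
      intro a ha
      have h1 : Conn D w u (D.tail a) := (hmemK _).1 ha
      have h2 : f (D.tail a) = r := hf2 _ _ (comp_eq D w (conn_symm D w h1))
      simp only [hc, h2]
    have l1 : (locD D (comp D w r) r hrK).wt (cs r) (tr (comp D w r) U) ≤ D.wt (part D w u c) U :=
      loc_wt_le D w (cs r) (comp D w r) r hrK hK (hcs r).1 _ (fun a ha => by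
        rw [part, if_pos ((hmemK _).1 ha)]
        exact (hce a ha).ge) U
    have l2 : (locD D (comp D w r) r hrK).wt (fun a => locw D w (comp D w r) a - cs r a)
        (tr (comp D w r) U) ≤ D.wt (part D w u fun a => w a - c a) U :=
      loc_wt_le D w _ (comp D w r) r hrK hK (fun a => Nat.sub_le _ _) _ (fun a ha => by
        rw [part, if_pos ((hmemK _).1 ha)]
        simp only [locw, if_pos ha, hce a ha]
        exact le_rfl) U
    have l3 : (locD D (comp D w r) r hrK).wt (fun a => locw D w (comp D w r) a - cs r a)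
        (tr (comp D w r) U) + (locD D (comp D w r) r hrK).wt (cs r) (tr (comp D w r) U)
        = (locD D (comp D w r) r hrK).wt (locw D w (comp D w r)) (tr (comp D w r) U) := by
      rw [DG.wt, DG.wt, DG.wt, ← sum_add_distrib]
      exact sum_congr rfl fun a _ => Nat.sub_add_cancel ((hcs r).1 a)
    constructor <;> omega
  exact ⟨c, fun a => w a - c a, fun a => (Nat.add_sub_cancel' (hcw a)).symm, key⟩

omit [Fintype V] [DecidableEq A] in
lemma wt_part_le (D : DG V A) (w : A → ℕ) (u : V) (x : A → ℕ) (U : Finset V) :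
    D.wt (part D w u x) U ≤ D.wt x U := by
  rw [DG.wt, DG.wt]
  refine sum_le_sum fun a _ => ?_
  rw [part]
  split_ifs
  · exact le_rfl
  · exact Nat.zero_le _

omit [DecidableEq A] in
theorem glue
    (hcore : ∀ (V' : Type u) [Fintype V'] [DecidableEq V'] (D : DG V' A) (w : A → ℕ) (X Y : Finset V') (τ : ℕ),
      2 ≤ τ → (∀ U, Sh D w X Y U → τ ≤ D.wt w U) → ∃ c, IsDec D w X Y τ c)
    (D : DG V A) (w : A → ℕ) (X Y : Finset V) (τ : ℕ) (hτ : 2 ≤ τ)
    (hXY : ∀ U : Finset V, U.Nonempty → U ≠ univ → (∀ a, 0 < w a → D.head a ∈ U → D.tail a ∈ U) →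
      (Disjoint U Y ∨ X ⊆ U) → τ ≤ D.wt w U) :
    ∃ c c' : A → ℕ, (∀ a, w a = c a + c' a) ∧
      ∀ U, D.IsShore U → (∃ u ∈ U, ∃ v, v ∉ U ∧ Conn D w u v ∧
        ((∀ y ∈ Y, Conn D w u y → y ∉ U) ∨ (∀ x ∈ X, Conn D w u x → x ∈ U))) →
        1 ≤ D.wt c U ∧ τ - 1 ≤ D.wt c' U := by
  obtain ⟨c, c', h1, h2⟩ := glue_local hcore D w X Y τ hτ hXY
  refine ⟨c, c', h1, ?_⟩
  rintro U hU ⟨u, hu, v, hv, huv, halt⟩
  obtain ⟨g1, g2⟩ := h2 U hU u hu v hv huv halt
  exact ⟨g1.trans (wt_part_le D w u c U), g2.trans (wt_part_le D w u c' U)⟩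

end Pool.Agent.helper52.ZA
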