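import Pool.Agent.helper52.ZA.Defs

/-!
# Net vectors of integral vectors between `0` and `w`

Induction on the total weight `∑ a, w a`, removing one unit of weight at a time.
-/

namespace Pool.Agent.helper52.ZA

open Finset Pool.Agent.helper52.DJ Pool.Agent.helper52.DM

variable {V A : Type*} [Fintype V] [DecidableEq V] [Fintype A] [DecidableEq A]

/-- the contribution of the arc `a` to `D.wt w U` -/
def ct (D : DG V A) (U : Finset V) (a : A) : ℤ := if D.tail a ∈ U ∧ D.head a ∉ U then 1 else 0

omit [Fintype V] [DecidableEq A] in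
lemma wt_eq_ct (D : DG V A) (w : A → ℕ) (U : Finset V) :
    (D.wt w U : ℤ) = ∑ a, ct D U a * (w a : ℤ) := by
  unfold DG.wt DG.out ct
  push_cast
  rw [sum_filter]
  refine sum_congr rfl fun a _ => ?_
  split_ifs <;> simp

omit [Fintype V] [Fintype A] [DecidableEq A] in
lemma ct_submod (D : DG V A) (U W : Finset V) (a : A) :
    ct D (U ∩ W) a + ct D (U ∪ W) a ≤ ct D U a + ct D W a := by
  unfold ct
  simp only [mem_inter, mem_union]
  by_cases h1 : D.tail a ∈ U <;> by_cases h2 : D.head a ∈ U <;> by_cases h3 : D.tail a ∈ W <;>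
    by_cases h4 : D.head a ∈ W <;> simp [h1, h2, h3, h4]

omit [Fintype V] [DecidableEq A] in
lemma net_eq_sum (D : DG V A) (c : A → ℕ) (v : V) :
    D.net (fun a => (c a : ℤ)) v
      = ∑ a, ((if D.tail a = v then (1:ℤ) else 0) - (if D.head a = v then (1:ℤ) else 0)) * (c a : ℤ) := by
  unfold DG.net
  rw [sum_filter, sum_filter, ← sum_sub_distrib]
  refine sum_congr rfl fun a _ => ?_
  split_ifs <;> simp

omit [Fintype V] in
lemma wt_dec (D : DG V A) (w : A → ℕ) (b : A) (hb : 0 < w b) (U : Finset V) :
    (D.wt (Function.update w b (w b - 1)) U : ℤ) = (D.wt w U : ℤ) - ct D U b := by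
  rw [wt_eq_ct, wt_eq_ct]
  have : ∀ a, ct D U a * ((Function.update w b (w b - 1) a : ℕ) : ℤ)
      = ct D U a * (w a : ℤ) - (if a = b then ct D U b else 0) := by
    intro a
    by_cases hab : a = b
    · subst hab
      rw [Function.update_self, if_pos rfl, Nat.cast_sub hb]
      push_cast; ring
    · rw [Function.update_of_ne hab, if_neg hab, sub_zero]
  rw [sum_congr rfl fun a _ => this a, sum_sub_distrib, sum_ite_eq' univ b]
  simp

theorem hoffman (D : DG V A) (w : A → ℕ) (z : V → ℤ) (hz : ∑ v, z v = 0)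
    (h : ∀ U : Finset V, ∑ v ∈ U, z v ≤ (D.wt w U : ℤ)) :
    ∃ c : A → ℕ, (∀ a, c a ≤ w a) ∧ ∀ v, D.net (fun a => (c a : ℤ)) v = z v := by
  induction hn : ∑ a, w a using Nat.strong_induction_on generalizing w z with
  | _ n ih =>
  by_cases h0 : ∀ a, w a = 0
  · have hle : ∀ v, z v ≤ 0 := by
      intro v
      have := h {v}
      rw [sum_singleton, wt_eq_ct] at this
      simpa [h0] using this
    have hzz : ∀ v, z v = 0 := by
      intro v
      by_contra hv
      have hlt : z v < 0 := lt_of_le_of_ne (hle v) hv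
      have : ∑ v, z v < 0 := by
        calc ∑ v, z v < ∑ _v : V, (0:ℤ) := sum_lt_sum (fun i _ => hle i) ⟨v, mem_univ _, hlt⟩
          _ = 0 := by simp
      omega
    refine ⟨fun _ => 0, fun a => Nat.zero_le _, fun v => ?_⟩
    rw [net_eq_sum, hzz]; simp
  · push Not at h0
    obtain ⟨b, hb0⟩ := h0
    have hb : 0 < w b := Nat.pos_of_ne_zero hb0
    set w' : A → ℕ := Function.update w b (w b - 1) with hw'
    have hsum : ∑ a, w' a < n := by
      rw [← hn]
      refine sum_lt_sum (fun a _ => ?_) ⟨b, mem_univ _, ?_⟩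
      · by_cases hab : a = b
        · subst hab; rw [hw', Function.update_self]; omega
        · rw [hw', Function.update_of_ne hab]
      · rw [hw', Function.update_self]; omega
    have hw'le : ∀ a, w' a ≤ w a := by
      intro a
      by_cases hab : a = b
      · subst hab; rw [hw', Function.update_self]; omega
      · rw [hw', Function.update_of_ne hab]
    -- first case
    by_cases hc1 : ∀ U : Finset V, ∑ v ∈ U, z v ≤ (D.wt w' U : ℤ)
    · obtain ⟨c, hc, hcn⟩ := ih _ hsum w' z hz hc1 rfl
      exact ⟨c, fun a => (hc a).trans (hw'le a), hcn⟩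
    -- second case
    set z' : V → ℤ := fun v => z v - (if D.tail b = v then (1:ℤ) else 0)
      + (if D.head b = v then (1:ℤ) else 0) with hz'
    have hz's : ∀ U : Finset V, ∑ v ∈ U, z' v = ∑ v ∈ U, z v - (if D.tail b ∈ U then (1:ℤ) else 0)
        + (if D.head b ∈ U then (1:ℤ) else 0) := by
      intro U
      simp only [hz', sum_add_distrib, sum_sub_distrib, sum_ite_eq]
    have hz'0 : ∑ v, z' v = 0 := by
      rw [hz's]; simp [hz]
    by_cases hc2 : ∀ U : Finset V, ∑ v ∈ U, z' v ≤ (D.wt w' U : ℤ)
    · obtain ⟨c, hc, hcn⟩ := ih _ hsum w' z' hz'0 hc2 rfl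
      refine ⟨fun a => c a + (if a = b then 1 else 0), fun a => ?_, fun v => ?_⟩
      · by_cases hab : a = b
        · subst hab
          have := hc a
          rw [hw', Function.update_self] at this
          simp only [if_true]; omega
        · simp only [if_neg hab, add_zero]
          exact (hc a).trans (hw'le a)
      · have h1 := hcn v
        rw [net_eq_sum] at h1 ⊢
        push_cast
        simp only [mul_add, sum_add_distrib, h1, mul_ite, mul_one, mul_zero, sum_ite_eq', mem_univ,
          if_true]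
        simp only [hz']
        ring
    -- contradiction
    exfalso
    push Not at hc1 hc2
    obtain ⟨W1, h1⟩ := hc1
    obtain ⟨W2, h2⟩ := hc2
    rw [hz's W2, hw', wt_dec D w b hb] at h2
    rw [hw', wt_dec D w b hb] at h1
    have g1 := h W1
    have g2 := h W2
    have gi := h (W1 ∩ W2)
    have gu := h (W1 ∪ W2)
    have hs : ∑ v ∈ W1 ∪ W2, z v + ∑ v ∈ W1 ∩ W2, z v = ∑ v ∈ W1, z v + ∑ v ∈ W2, z v :=
      sum_union_inter
    -- submodularity with a strict gain at `b`
    have key : ∀ (hb1 : ct D (W1 ∩ W2) b + ct D (W1 ∪ W2) b + 1 ≤ ct D W1 b + ct D W2 b),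
        (D.wt w (W1 ∩ W2) : ℤ) + D.wt w (W1 ∪ W2) + 1 ≤ D.wt w W1 + D.wt w W2 := by
      intro hb1
      rw [wt_eq_ct, wt_eq_ct, wt_eq_ct, wt_eq_ct, ← sum_add_distrib, ← sum_add_distrib]
      have : ∑ a, (ct D (W1 ∩ W2) a * (w a : ℤ) + ct D (W1 ∪ W2) a * (w a : ℤ))
          < ∑ a, (ct D W1 a * (w a : ℤ) + ct D W2 a * (w a : ℤ)) := by
        refine sum_lt_sum (fun a _ => ?_) ⟨b, mem_univ _, ?_⟩
        · rw [← add_mul, ← add_mul]
          exact mul_le_mul_of_nonneg_right (ct_submod D W1 W2 a) (Int.natCast_nonneg _)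
        · rw [← add_mul, ← add_mul]
          exact mul_lt_mul_of_pos_right (by omega) (by exact_mod_cast hb)
      omega
    have e1 : ct D W1 b = 1 ∨ ct D W1 b = 0 := by unfold ct; split_ifs <;> simp
    rcases e1 with e1 | e1
    · have hW1 : D.tail b ∈ W1 ∧ D.head b ∉ W1 := by
        by_contra hcon; unfold ct at e1; rw [if_neg hcon] at e1; exact absurd e1 (by norm_num)
      by_cases t2 : D.tail b ∈ W2 <;> by_cases s2 : D.head b ∈ W2
      · rw [if_pos t2, if_pos s2] at h2
        have : ct D W2 b = 0 := by unfold ct; rw [if_neg (by tauto)]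
        omega
      · rw [if_pos t2, if_neg s2] at h2
        have : ct D W2 b = 1 := by unfold ct; rw [if_pos ⟨t2, s2⟩]
        omega
      · rw [if_neg t2, if_pos s2] at h2
        have c2 : ct D W2 b = 0 := by unfold ct; rw [if_neg (by tauto)]
        have c3 : ct D (W1 ∩ W2) b = 0 := by
          unfold ct; rw [if_neg (by simp only [mem_inter]; tauto)]
        have c4 : ct D (W1 ∪ W2) b = 0 := by
          unfold ct; rw [if_neg (by simp only [mem_union]; tauto)]
        have := key (by omega)
        omega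
      · rw [if_neg t2, if_neg s2] at h2
        have : ct D W2 b = 0 := by unfold ct; rw [if_neg (by tauto)]
        omega
    · omega

end Pool.Agent.helper52.ZA
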