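import Pool.Agent.helper52.ZA.Int2
import Pool.Agent.helper52.ZA.Hoff

/-!
# The core theorem
-/

namespace Pool.Agent.helper52.ZA

open Finset Pool.Agent.helper52.DJ Pool.Agent.helper52.DM

universe u

section good
variable {V A : Type*} [Fintype V] [DecidableEq V] [Fintype A] [DecidableEq A]

omit [DecidableEq A] in
lemma win_compl (D : DG V A) (w : A → ℕ) (U : Finset V) : win D w (univ \ U) = D.wt w U := by
  rw [win_eq, wt_eq']
  refine sum_congr rfl fun a _ => ?_
  simp

omit [DecidableEq A] in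
lemma wt_compl (D : DG V A) (w : A → ℕ) (U : Finset V) : D.wt w (univ \ U) = win D w U := by
  rw [win_eq, wt_eq']
  refine sum_congr rfl fun a _ => ?_
  simp

theorem core_good (D : DG V A) (w : A → ℕ) (X Y : Finset V) (τ : ℕ) (hτ : 2 ≤ τ)
    (hcut : ∀ U, Sh D w X Y U → τ ≤ D.wt w U)
    (hbad : ∀ W : Finset V, W.Nonempty → W ≠ univ → win D w W = 1 → D.wt w W = 0 →
      ¬ (Disjoint W Y ∨ X ⊆ W)) : ∃ c, IsDec D w X Y τ c := by
  classical
  have hτR : (2 : ℝ) ≤ τ := by exact_mod_cast hτ
  have hpos : (0 : ℝ) < τ := by linarith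
  have hτZ : (2 : ℤ) ≤ τ := by exact_mod_cast hτ
  have hsumU : ∀ U : Finset V, ∑ v ∈ U, ((D.net (fun a => (w a : ℤ)) v : ℤ) : ℝ) / τ
      = ((D.wt w U : ℝ) - win D w U) / τ := by
    intro U
    rw [← sum_div]
    congr 1
    have := sum_dem D w U
    have h' : ((∑ v ∈ U, D.net (fun a => (w a : ℤ)) v : ℤ) : ℝ) = (((D.wt w U : ℤ) - win D w U : ℤ) : ℝ) := by
      rw [this]
    push_cast at h'
    exact h'
  have hfeas : FeasJ D w X Y τ (fun v => ((D.net (fun a => (w a : ℤ)) v : ℤ) : ℝ) / τ) := by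
    refine ⟨?_, fun U h1 h2 => ?_, fun U hU => ?_⟩
    · have := sum_net_univ D (fun a => (w a : ℤ))
      rw [← sum_div, div_eq_zero_iff]
      left
      exact_mod_cast this
    · rw [hsumU, le_div_iff₀ hpos]
      have key : p1 D w X Y U * τ ≤ (D.wt w U : ℤ) - win D w U := by
        rw [p1]
        have n1 : (0 : ℤ) ≤ D.wt w U := Int.natCast_nonneg _
        have n2 : (0 : ℤ) ≤ win D w U := Int.natCast_nonneg _
        by_cases hok : Disjoint U Y ∨ X ⊆ U
        · rw [chi_of hok]
          rcases Nat.lt_or_ge (win D w U) 1 with h | h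
          · have h0 : win D w U = 0 := by omega
            have hSh : Sh D w X Y U := by
              refine ⟨h1, h2, fun a ha hh => ?_, hok⟩
              by_contra hcon
              have h3 : w a ≤ win D w U :=
                single_le_sum (f := w) (fun _ _ => Nat.zero_le _)
                  (mem_filter.2 ⟨mem_univ a, hcon, hh⟩)
              omega
            have h3 : (τ : ℤ) ≤ D.wt w U := by exact_mod_cast hcut U hSh
            rw [h0]; push_cast; linarith
          · rcases Nat.lt_or_ge (win D w U) 2 with h' | h'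
            · have h0 : win D w U = 1 := by omega
              have h3 : D.wt w U ≠ 0 := fun h3 => hbad U h1 h2 h0 h3 hok
              have h4 : (1 : ℤ) ≤ D.wt w U := by
                have : 1 ≤ D.wt w U := by omega
                exact_mod_cast this
              rw [h0]; push_cast; linarith
            · have h4 : (2 : ℤ) ≤ win D w U := by exact_mod_cast h'
              nlinarith
        · rw [chi_not hok]
          nlinarith
      exact_mod_cast key
    · rw [hsumU, div_le_iff₀ hpos, win_zero D w w (fun _ => le_rfl) hU]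
      have h3 : (τ : ℝ) ≤ D.wt w U := by exact_mod_cast hcut U hU
      push_cast
      nlinarith
  obtain ⟨z, hz⟩ := exists_feasJ_int D w X Y τ _ hfeas
  have hz0 : ∑ v, z v = 0 := by
    have := hz.sum
    exact_mod_cast this
  have hzlo : ∀ U : Finset V, U.Nonempty → U ≠ univ → p1 D w X Y U ≤ ∑ v ∈ U, z v := by
    intro U h1 h2
    have := hz.lo U h1 h2
    exact_mod_cast this
  have hle : ∀ U : Finset V, ∑ v ∈ U, z v ≤ (D.wt w U : ℤ) := by
    intro U
    by_cases h1 : U = ∅
    · subst h1; simp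
    by_cases h2 : U = univ
    · subst h2; rw [hz0]; exact Int.natCast_nonneg _
    have h3 : (univ \ U).Nonempty := by
      rw [nonempty_iff_ne_empty]
      intro h
      rw [sdiff_eq_empty_iff_subset] at h
      exact h2 (eq_univ_of_forall fun v => h (mem_univ v))
    have h4 : univ \ U ≠ univ := by
      intro h
      obtain ⟨v, hv⟩ := nonempty_iff_ne_empty.2 h1
      have : v ∈ univ \ U := by rw [h]; exact mem_univ v
      exact (mem_sdiff.1 this).2 hv
    have h5 := hzlo _ h3 h4
    have h6 : ∑ v ∈ univ \ U, z v + ∑ v ∈ U, z v = ∑ v, z v := sum_sdiff (subset_univ U)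
    rw [p1, win_compl] at h5
    have h7 := chi_nonneg X Y (univ \ U)
    linarith
  obtain ⟨c, hc1, hc2⟩ := hoffman D w z hz0 hle
  refine ⟨c, hc1, fun U hU => ?_⟩
  have h1 : ∑ v ∈ U, z v = (D.wt c U : ℤ) := by
    have e : ∑ v ∈ U, z v = ∑ v ∈ U, D.net (fun a => (c a : ℤ)) v := sum_congr rfl fun v _ => (hc2 v).symm
    rw [e, sum_dem D c U, win_zero D w c hc1 hU]
    simp
  have h2 : 1 ≤ ∑ v ∈ U, z v := by
    have := hzlo U hU.nonempty hU.ne_univ
    rw [p1, chi_of hU.ok, win_zero D w w (fun _ => le_rfl) hU] at this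
    simpa using this
  have h3 : ∑ v ∈ U, z v ≤ (D.wt w U : ℤ) - (τ - 1) := by
    have := hz.hi U hU
    exact_mod_cast this
  rw [h1] at h2 h3
  constructor <;> omega

end good

section replace
variable {V A : Type*} [Fintype V] [DecidableEq V] [Fintype A] [DecidableEq A]

omit [Fintype A] [DecidableEq A] in
/-- dicuts through a bad arc are implied by others -/
theorem replace (D : DG V A) (w : A → ℕ) (X Y W : Finset V) (a0 : A)
    (h1 : D.tail a0 ∉ W) (h2 : D.head a0 ∈ W) (ha0 : 0 < w a0)
    (hin : ∀ a, 0 < w a → D.tail a ∉ W → D.head a ∈ W → a = a0)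
    (hout : ∀ a, 0 < w a → D.tail a ∈ W → D.head a ∈ W)
    (hok : Disjoint W Y ∨ X ⊆ W) (hy : ∃ y ∈ Y, y ∉ W) (hx : ∃ x ∈ X, x ∈ W)
    (U : Finset V) (hU : Sh D w X Y U) (hU1 : D.tail a0 ∈ U) (hU2 : D.head a0 ∉ U) :
    ∃ U2, Sh D w X Y U2 ∧ (D.tail a0 ∈ U2 ↔ D.head a0 ∈ U2) ∧
      ∀ a, 0 < w a → D.tail a ∈ U2 → D.head a ∉ U2 → D.tail a ∈ U ∧ D.head a ∉ U := by
  obtain ⟨y, hyY, hyW⟩ := hy
  obtain ⟨x, hxX, hxW⟩ := hx
  have hI : (U ∩ W).Nonempty → (Disjoint (U ∩ W) Y ∨ X ⊆ U ∩ W) →
      ∃ U2, Sh D w X Y U2 ∧ (D.tail a0 ∈ U2 ↔ D.head a0 ∈ U2) ∧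
      ∀ a, 0 < w a → D.tail a ∈ U2 → D.head a ∉ U2 → D.tail a ∈ U ∧ D.head a ∉ U := by
    intro hne hk
    refine ⟨U ∩ W, ⟨hne, ?_, ?_, hk⟩, ?_, ?_⟩
    · intro h
      have : D.head a0 ∈ U ∩ W := by rw [h]; exact mem_univ _
      exact hU2 (mem_inter.1 this).1
    · intro a ha hh
      rw [mem_inter] at hh ⊢
      refine ⟨hU.closed a ha hh.1, ?_⟩
      by_contra hcon
      have := hin a ha hcon hh.2
      subst this
      exact hU2 hh.1
    · constructor
      · intro h; exact absurd (mem_inter.1 h).2 h1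
      · intro h; exact absurd (mem_inter.1 h).1 hU2
    · intro a ha ht hh
      rw [mem_inter] at ht hh
      exact ⟨ht.1, fun h => hh ⟨h, hout a ha ht.2⟩⟩
  have hUn : U ∪ W ≠ univ → (Disjoint (U ∪ W) Y ∨ X ⊆ U ∪ W) →
      ∃ U2, Sh D w X Y U2 ∧ (D.tail a0 ∈ U2 ↔ D.head a0 ∈ U2) ∧
      ∀ a, 0 < w a → D.tail a ∈ U2 → D.head a ∉ U2 → D.tail a ∈ U ∧ D.head a ∉ U := by
    intro hne hk
    refine ⟨U ∪ W, ⟨hU.nonempty.mono subset_union_left, hne, ?_, hk⟩, ?_, ?_⟩
    · intro a ha hh
      rw [mem_union] at hh ⊢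
      rcases hh with hh | hh
      · exact Or.inl (hU.closed a ha hh)
      · by_cases ht : D.tail a ∈ W
        · exact Or.inr ht
        · have := hin a ha ht hh
          subst this
          exact Or.inl hU1
    · exact ⟨fun _ => mem_union_right _ h2, fun _ => mem_union_left _ hU1⟩
    · intro a ha ht hh
      rw [mem_union] at ht hh
      push Not at hh
      rcases ht with ht | ht
      · exact ⟨ht, hh.1⟩
      · exact absurd (hout a ha ht) hh.2
  rcases hok with hok | hok
  · by_cases hne : (U ∩ W).Nonempty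
    · exact hI hne (Or.inl (hok.mono_left inter_subset_right))
    · have hxU : x ∉ U := fun h => hne ⟨x, mem_inter.2 ⟨h, hxW⟩⟩
      have hdU : Disjoint U Y := by
        rcases hU.ok with h | h
        · exact h
        · exact absurd (h hxX) hxU
      refine hUn ?_ (Or.inl (disjoint_union_left.2 ⟨hdU, hok⟩))
      intro h
      have : y ∈ U ∪ W := by rw [h]; exact mem_univ _
      rcases mem_union.1 this with h' | h'
      · exact (disjoint_left.1 hdU h') hyY
      · exact hyW h'
  · by_cases hne : U ∪ W = univ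
    · have hyU : y ∈ U := by
        have : y ∈ U ∪ W := by rw [hne]; exact mem_univ _
        rcases mem_union.1 this with h' | h'
        · exact h'
        · exact absurd h' hyW
      have hXU : X ⊆ U := by
        rcases hU.ok with h | h
        · exact absurd hyY (disjoint_left.1 h hyU)
        · exact h
      exact hI ⟨x, mem_inter.2 ⟨hXU hxX, hxW⟩⟩ (Or.inr (subset_inter hXU hok))
    · exact hUn hne (Or.inr (hok.trans subset_union_right))

end replace

section con
variable {V A : Type*} [Fintype V] [DecidableEq V] [Fintype A] [DecidableEq A]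

/-- contraction of `y0` into `x0` -/
def pr (x0 y0 : V) (h : x0 ≠ y0) (v : V) : {v : V // v ≠ y0} := if hv : v = y0 then ⟨x0, h⟩ else ⟨v, hv⟩

omit [Fintype V] in
lemma pr_self (x0 y0 : V) (h : x0 ≠ y0) (v : {v : V // v ≠ y0}) : pr x0 y0 h v = v := by
  rw [pr, dif_neg v.2]

/-- the contracted digraph -/
def conD (D : DG V A) (x0 y0 : V) (h : x0 ≠ y0) : DG {v : V // v ≠ y0} A :=
  ⟨fun a => pr x0 y0 h (D.tail a), fun a => pr x0 y0 h (D.head a)⟩

/-- preimage -/
def pre (x0 y0 : V) (h : x0 ≠ y0) (U : Finset {v : V // v ≠ y0}) : Finset V :=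
  univ.filter fun v => pr x0 y0 h v ∈ U

lemma mem_pre (x0 y0 : V) (h : x0 ≠ y0) (U : Finset {v : V // v ≠ y0}) (v : V) :
    v ∈ pre x0 y0 h U ↔ pr x0 y0 h v ∈ U := by simp [pre]

omit [DecidableEq A] in
lemma wt_con (D : DG V A) (x0 y0 : V) (h : x0 ≠ y0) (x : A → ℕ) (U : Finset {v : V // v ≠ y0}) :
    (conD D x0 y0 h).wt x U = D.wt x (pre x0 y0 h U) := by
  rw [wt_eq', wt_eq']
  refine sum_congr rfl fun a _ => ?_
  simp only [mem_pre, conD]
  congr

omit [Fintype A] [DecidableEq A] in
lemma sh_con (D : DG V A) (w : A → ℕ) (X Y : Finset V) (x0 y0 : V) (h : x0 ≠ y0)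
    (U : Finset {v : V // v ≠ y0}) :
    Sh (conD D x0 y0 h) w (X.image (pr x0 y0 h)) (Y.image (pr x0 y0 h)) U ↔
      Sh D w X Y (pre x0 y0 h U) := by
  constructor
  · intro hU
    refine ⟨?_, ?_, ?_, ?_⟩
    · obtain ⟨v, hv⟩ := hU.nonempty
      exact ⟨v, by rw [mem_pre, pr_self]; exact hv⟩
    · intro he
      apply hU.ne_univ
      rw [eq_univ_iff_forall] at he ⊢
      intro v
      have := he v
      rwa [mem_pre, pr_self] at this
    · intro a ha hh
      rw [mem_pre] at hh ⊢
      exact hU.closed a ha hh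
    · rcases hU.ok with hk | hk
      · left
        rw [disjoint_left] at hk ⊢
        intro v hv hY
        rw [mem_pre] at hv
        exact hk hv (mem_image_of_mem _ hY)
      · right
        intro v hv
        rw [mem_pre]
        exact hk (mem_image_of_mem _ hv)
  · intro hU
    refine ⟨?_, ?_, ?_, ?_⟩
    · obtain ⟨v, hv⟩ := hU.nonempty
      exact ⟨_, (mem_pre x0 y0 h U v).1 hv⟩
    · intro he
      apply hU.ne_univ
      rw [eq_univ_iff_forall] at he ⊢
      intro v
      rw [mem_pre]
      exact he _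
    · intro a ha hh
      have := hU.closed a ha ((mem_pre x0 y0 h U _).2 hh)
      exact (mem_pre x0 y0 h U _).1 this
    · rcases hU.ok with hk | hk
      · left
        rw [disjoint_left] at hk ⊢
        intro v hv hY
        obtain ⟨y, hy, rfl⟩ := mem_image.1 hY
        exact hk ((mem_pre x0 y0 h U y).2 hv) hy
      · right
        intro v hv
        obtain ⟨x, hx, rfl⟩ := mem_image.1 hv
        exact (mem_pre x0 y0 h U x).1 (hk hx)

end con

/-- **Core theorem.** -/
theorem core {A : Type*} [Fintype A] [DecidableEq A] (w : A → ℕ) (τ : ℕ) (hτ : 2 ≤ τ) :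
    ∀ (n : ℕ) (V : Type u) [Fintype V] [DecidableEq V] (D : DG V A) (X Y : Finset V),
      Fintype.card V = n → (∀ U, Sh D w X Y U → τ ≤ D.wt w U) → ∃ c, IsDec D w X Y τ c := by
  intro n
  induction n using Nat.strong_induction_on with
  | _ n ih =>
  intro V _ _ D X Y hn hcut
  by_cases hbad : ∀ W : Finset V, W.Nonempty → W ≠ univ → win D w W = 1 → D.wt w W = 0 →
      ¬ (Disjoint W Y ∨ X ⊆ W)
  · exact core_good D w X Y τ hτ hcut hbad
  push Not at hbad
  obtain ⟨W, hW1, hW2, hin, hout, hok⟩ := hbad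
  -- the entering arc
  have hex : ∃ a0, D.tail a0 ∉ W ∧ D.head a0 ∈ W ∧ 0 < w a0 := by
    by_contra hcon
    push Not at hcon
    have : win D w W = 0 := sum_eq_zero fun a ha => by
      rw [mem_filter] at ha
      have := hcon a ha.2.1 ha.2.2
      omega
    omega
  obtain ⟨a0, h1, h2, h3⟩ := hex
  have hin' : ∀ a, 0 < w a → D.tail a ∉ W → D.head a ∈ W → a = a0 := by
    intro a ha ht hh
    by_contra hne
    have hs : ∑ b ∈ ({a, a0} : Finset A), w b ≤ win D w W := by
      apply sum_le_sum_of_subset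
      intro b hb
      rw [mem_insert, mem_singleton] at hb
      rw [mem_filter]
      rcases hb with rfl | rfl
      · exact ⟨mem_univ _, ht, hh⟩
      · exact ⟨mem_univ _, h1, h2⟩
    rw [sum_pair hne] at hs
    omega
  have hout' : ∀ a, 0 < w a → D.tail a ∈ W → D.head a ∈ W := by
    intro a ha ht
    by_contra hh
    have : w a ≤ D.wt w W := single_le_sum (f := w) (fun _ _ => Nat.zero_le _)
      (by rw [DG.out, mem_filter]; exact ⟨mem_univ a, ht, hh⟩)
    omega
  have hnot : ¬ (Disjoint (univ \ W) Y ∨ X ⊆ univ \ W) := by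
    intro hk
    have hSh : Sh D w X Y (univ \ W) := by
      refine ⟨?_, ?_, ?_, hk⟩
      · rw [nonempty_iff_ne_empty]
        intro h
        rw [sdiff_eq_empty_iff_subset] at h
        exact hW2 (eq_univ_of_forall fun v => h (mem_univ v))
      · intro h
        obtain ⟨v, hv⟩ := hW1
        have : v ∈ univ \ W := by rw [h]; exact mem_univ v
        exact (mem_sdiff.1 this).2 hv
      · intro a ha hh
        rw [mem_sdiff] at hh ⊢
        exact ⟨mem_univ _, fun ht => hh.2 (hout' a ha ht)⟩
    have := hcut _ hSh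
    rw [wt_compl] at this
    omega
  rw [not_or] at hnot
  have hy : ∃ y ∈ Y, y ∉ W := by
    obtain ⟨y, hy1, hy2⟩ := not_disjoint_iff.1 hnot.1
    exact ⟨y, hy2, (mem_sdiff.1 hy1).2⟩
  have hx : ∃ x ∈ X, x ∈ W := by
    by_contra hcon
    push Not at hcon
    exact hnot.2 fun x hx => mem_sdiff.2 ⟨mem_univ _, hcon x hx⟩
  have hne : D.tail a0 ≠ D.head a0 := fun h => h1 (h ▸ h2)
  obtain ⟨c, hc1, hc2⟩ := ih (Fintype.card {v : V // v ≠ D.head a0})
    (by rw [← hn]; exact Fintype.card_subtype_lt (x := D.head a0) (by simp))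
    {v : V // v ≠ D.head a0} (conD D (D.tail a0) (D.head a0) hne)
    (X.image (pr (D.tail a0) (D.head a0) hne)) (Y.image (pr (D.tail a0) (D.head a0) hne)) rfl
    (fun U hU => by
      rw [wt_con]
      exact hcut _ ((sh_con D w X Y _ _ hne U).1 hU))
  have hsat : ∀ U, Sh D w X Y U → (D.tail a0 ∈ U ↔ D.head a0 ∈ U) →
      1 ≤ D.wt c U ∧ D.wt c U + (τ - 1) ≤ D.wt w U := by
    intro U hU hs
    set U' : Finset {v : V // v ≠ D.head a0} := univ.filter fun v => (v : V) ∈ U with hU'
    have e : pre (D.tail a0) (D.head a0) hne U' = U := by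
      ext v
      rw [mem_pre, hU', mem_filter]
      simp only [mem_univ, true_and, pr]
      split_ifs with hv
      · subst hv; exact hs
      · rfl
    have := hc2 U' ((sh_con D w X Y _ _ hne U').2 (by rw [e]; exact hU))
    rw [wt_con, wt_con, e] at this
    exact this
  refine ⟨c, hc1, fun U hU => ?_⟩
  by_cases hs : (D.tail a0 ∈ U ↔ D.head a0 ∈ U)
  · exact hsat U hU hs
  · have hh : D.head a0 ∉ U := fun h => hs ⟨fun _ => h, fun _ => hU.closed a0 h3 h⟩
    have ht : D.tail a0 ∈ U := by
      by_contra ht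
      exact hs ⟨fun h => absurd h ht, fun h => absurd h hh⟩
    obtain ⟨U2, hU2, hs2, hl⟩ := replace D w X Y W a0 h1 h2 h3 hin' hout' hok hy hx U hU ht hh
    obtain ⟨g1, g2⟩ := hsat U2 hU2 hs2
    have k1 : D.wt c U2 ≤ D.wt c U := by
      rw [wt_eq', wt_eq']
      refine sum_le_sum fun a _ => ?_
      by_cases ha : 0 < w a
      · split_ifs with p q q
        · exact le_rfl
        · exact absurd (hl a ha p.1 p.2) q
        · exact Nat.zero_le _
        · exact le_rfl
      · have : c a = 0 := by have := hc1 a; omega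
        simp [this]
    have k2 : D.wt w U2 + D.wt c U ≤ D.wt w U + D.wt c U2 := by
      rw [wt_eq', wt_eq', wt_eq', wt_eq', ← sum_add_distrib, ← sum_add_distrib]
      refine sum_le_sum fun a _ => ?_
      by_cases ha : 0 < w a
      · have := hc1 a
        split_ifs with p q q
        · omega
        · exact absurd (hl a ha p.1 p.2) q
        · omega
        · omega
      · have : c a = 0 := by have := hc1 a; omega
        have h0 : w a = 0 := by omega
        simp [this, h0]
    constructor <;> omega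

end Pool.Agent.helper52.ZA
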