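import Pool.Agent.helper52.DM.Gap

/-!
# Weighted digraphs with few zero-weight reachabilities: definitions

`X` are the tails and `Y` the heads of the arcs of weight zero.
-/

namespace Pool.Agent.helper52.ZA

open Finset Pool.Agent.helper52.DJ Pool.Agent.helper52.DM

variable {V A : Type*} [Fintype V] [DecidableEq V] [Fintype A] [DecidableEq A]

/-- the weight of the arcs entering `U` -/
def win (D : DG V A) (w : A → ℕ) (U : Finset V) : ℕ :=
  ∑ a ∈ univ.filter (fun a => D.tail a ∉ U ∧ D.head a ∈ U), w a

/-- nonempty proper sets not entered by an arc of positive weight, disjoint from `Y` or containing `X` -/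
structure Sh (D : DG V A) (w : A → ℕ) (X Y U : Finset V) : Prop where
  nonempty : U.Nonempty
  ne_univ : U ≠ univ
  closed : ∀ a, 0 < w a → D.head a ∈ U → D.tail a ∈ U
  ok : Disjoint U Y ∨ X ⊆ U

/-- `c ≤ w` is a one-step decomposition for the sets of `Sh` -/
def IsDec (D : DG V A) (w : A → ℕ) (X Y : Finset V) (τ : ℕ) (c : A → ℕ) : Prop :=
  (∀ a, c a ≤ w a) ∧ ∀ U, Sh D w X Y U → 1 ≤ D.wt c U ∧ D.wt c U + (τ - 1) ≤ D.wt w U

/-- the arcs of positive weight leaving `U` -/
def posOut (D : DG V A) (w : A → ℕ) (U : Finset V) : Finset A := (D.out U).filter fun a => 0 < w a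

end Pool.Agent.helper52.ZA
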