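import Pool.Agent.helper52.ZA.Defs

/-!
# Directions for two crossing families
-/

namespace Pool.Agent.helper52.ZA

open Finset Pool.Agent.helper52.DJ Pool.Agent.helper52.DM

variable {V : Type*} [Fintype V] [DecidableEq V]

lemma cls_int {T : Set (Finset V)} (hT : IsCrossing T) (z : V → ℝ) (h0 : ∑ v, z v = 0)
    (hS : ∀ U ∈ T, IsInt (∑ v ∈ U, z v)) (u : V) : IsInt (∑ v ∈ cls T u, z v) := by
  have h1 := sum_int_of_upClosed hT z h0 hS _ (upClosed_above T u)
  have h2 := sum_int_of_upClosed hT z h0 hS _ (upClosed_above_sdiff T u)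
  have e := sum_sdiff (f := z) (cls_subset_above T u)
  have : ∑ v ∈ cls T u, z v = ∑ v ∈ above T u, z v - ∑ v ∈ above T u \ cls T u, z v := by
    rw [← e]; ring
  rw [this]
  exact isInt_sub h1 h2

lemma cls_eq {T : Set (Finset V)} {u v : V} (h : u ∈ cls T v) : cls T u = cls T v := by
  ext w
  simp only [cls, mem_filter, mem_univ, true_and] at h ⊢
  constructor
  · intro hw U hU; rw [h U hU]; exact hw U hU
  · intro hw U hU; rw [← h U hU]; exact hw U hU

lemma self_mem_cls (T : Set (Finset V)) (v : V) : v ∈ cls T v := by simp [cls]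

lemma fiber_cls (T : Set (Finset V)) (v : V) : univ.filter (fun u => cls T u = cls T v) = cls T v := by
  ext u
  simp only [mem_filter, mem_univ, true_and]
  constructor
  · intro h; rw [← h]; exact self_mem_cls T u
  · exact cls_eq

omit [DecidableEq V] in
lemma sum_nonint (z f : V → ℝ) (P : V → Prop) [DecidablePred P] :
    ∑ a ∈ univ.filter (fun a : {v // ¬ IsInt (z v)} => P a), f a
      = ∑ v ∈ (univ.filter P).filter (fun v => ¬ IsInt (z v)), f v := by
  rw [sum_filter]
  have e : (univ.filter P).filter (fun v => ¬ IsInt (z v)) = (univ.filter fun v => ¬ IsInt (z v)).filter P := by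
    rw [filter_filter, filter_filter]; congr 1; ext a; tauto
  rw [e, sum_filter]
  exact (sum_subtype (p := fun v => ¬ IsInt (z v)) (univ.filter fun v => ¬ IsInt (z v))
    (fun v => by simp) (fun v => if P v then f v else 0)).symm

lemma fiber_int {T : Set (Finset V)} (hT : IsCrossing T) (z : V → ℝ) (h0 : ∑ v, z v = 0)
    (hS : ∀ U ∈ T, IsInt (∑ v ∈ U, z v)) (K : Finset V) :
    IsInt (∑ a ∈ univ.filter (fun a : {v // ¬ IsInt (z v)} => cls T (a : V) = K), z a) := by
  rw [sum_nonint z z (fun v => cls T v = K)]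
  have h := sum_filter_add_sum_filter_not (univ.filter fun v => cls T v = K) (fun v => IsInt (z v)) z
  have h1 : IsInt (∑ v ∈ univ.filter (fun v => cls T v = K), z v) := by
    by_cases hK : ∃ v0, cls T v0 = K
    · obtain ⟨v0, rfl⟩ := hK
      rw [fiber_cls]
      exact cls_int hT z h0 hS v0
    · have e : univ.filter (fun v => cls T v = K) = ∅ := by
        rw [filter_eq_empty_iff]
        intro v _ hv
        exact hK ⟨v, hv⟩
      rw [e]; exact ⟨0, by simp⟩
  have e : ∑ v ∈ (univ.filter fun v => cls T v = K).filter (fun v => ¬ IsInt (z v)), z v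
      = ∑ v ∈ univ.filter (fun v => cls T v = K), z v
        - ∑ v ∈ (univ.filter fun v => cls T v = K).filter (fun v => IsInt (z v)), z v := by
    rw [← h]; ring
  rw [e]
  exact isInt_sub h1 (isInt_sum _ _ fun v hv => (mem_filter.1 hv).2)

lemma sum_of_fibers {T : Set (Finset V)} (y : V → ℝ)
    (hy : ∀ K, ∑ v ∈ univ.filter (fun v => cls T v = K), y v = 0) (U : Finset V)
    (hU : ∀ u ∈ U, ∀ v, v ∈ cls T u → v ∈ U) : ∑ v ∈ U, y v = 0 := by
  rw [← sum_fiberwise_of_maps_to (s := U) (t := U.image (cls T)) (g := cls T)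
    (fun v hv => mem_image_of_mem _ hv)]
  refine sum_eq_zero fun n hn => ?_
  obtain ⟨v, hv, rfl⟩ := mem_image.1 hn
  rw [← hy (cls T v)]
  congr 1
  ext u
  simp only [mem_filter, mem_univ, true_and]
  constructor
  · exact fun h => h.2
  · intro h
    exact ⟨hU v hv u (by rw [← h]; exact self_mem_cls T u), h⟩

theorem direction2 {T1 T2 : Set (Finset V)} (h1 : IsCrossing T1) (h2 : IsCrossing T2) (z : V → ℝ)
    (h0 : ∑ v, z v = 0) (hS1 : ∀ U ∈ T1, IsInt (∑ v ∈ U, z v)) (hS2 : ∀ U ∈ T2, IsInt (∑ v ∈ U, z v))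
    (hni : ∃ v, ¬ IsInt (z v)) :
    ∃ y : V → ℝ, y ≠ 0 ∧ ∑ v, y v = 0 ∧ (∀ U ∈ T1, ∑ v ∈ U, y v = 0) ∧ (∀ U ∈ T2, ∑ v ∈ U, y v = 0) := by
  classical
  obtain ⟨v0, hv0⟩ := hni
  have : Nonempty {v // ¬ IsInt (z v)} := ⟨⟨v0, hv0⟩⟩
  obtain ⟨y, hy0, hy⟩ := exists_circulation (α := {v // ¬ IsInt (z v)}) (N := Finset V ⊕ Finset V)
    (fun v => Sum.inl (cls T1 (v : V))) (fun v => Sum.inr (cls T2 (v : V))) (fun v => z v)
    (fun v k hk => v.2 ⟨k, hk⟩) (by
      intro n
      rcases n with K | K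
      · obtain ⟨k, hk⟩ := fiber_int h1 z h0 hS1 K
        exact ⟨k, by simpa using hk⟩
      · have := fiber_int h2 z h0 hS2 K
        obtain ⟨k, hk⟩ := this
        refine ⟨-k, ?_⟩
        push_cast
        rw [← hk]
        simp)
  set Y : V → ℝ := fun v => if h : ¬ IsInt (z v) then y ⟨v, h⟩ else 0 with hY
  have hYz : ∀ v, IsInt (z v) → Y v = 0 := fun v hv => by
    rw [hY]; simp only [dif_neg (not_not.2 hv)]
  have hYs : ∀ v : {v // ¬ IsInt (z v)}, Y v = y v := fun v => by
    rw [hY]; simp only [dif_pos v.2]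
  have hfib : ∀ (T : Set (Finset V)), (∀ K, ∑ a ∈ univ.filter
      (fun a : {v // ¬ IsInt (z v)} => cls T (a : V) = K), y a = 0) →
      ∀ K, ∑ v ∈ univ.filter (fun v => cls T v = K), Y v = 0 := by
    intro T hT K
    rw [← sum_filter_add_sum_filter_not (univ.filter fun v => cls T v = K) (fun v => IsInt (z v)) Y,
      sum_eq_zero (s := (univ.filter fun v => cls T v = K).filter fun v => IsInt (z v))
        (fun v hv => hYz v (mem_filter.1 hv).2), zero_add, ← sum_nonint z Y (fun v => cls T v = K)]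
    simp only [hYs]
    exact hT K
  have f1 := hfib T1 (fun K => by have := hy (Sum.inl K); simpa using this)
  have f2 := hfib T2 (fun K => by have := hy (Sum.inr K); simpa using this)
  refine ⟨Y, ?_, ?_, ?_, ?_⟩
  · intro hcon
    apply hy0
    funext a
    rw [← hYs a, hcon]; rfl
  · exact sum_of_fibers Y f1 univ (fun _ _ v _ => mem_univ v)
  · intro U hU
    refine sum_of_fibers Y f1 U fun u hu v hv => ?_
    simp only [cls, mem_filter, mem_univ, true_and] at hv
    exact (hv U hU).1 hu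
  · intro U hU
    refine sum_of_fibers Y f2 U fun u hu v hv => ?_
    simp only [cls, mem_filter, mem_univ, true_and] at hv
    exact (hv U hU).1 hu

end Pool.Agent.helper52.ZA
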