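import Pool.Agent.helper52.ZA.Core
import Pool.Agent.helper52.ZA.Comp

/-!
# Weighted digraphs with zero-weight arcs
-/

namespace Pool.Agent.helper52.ZA

open Finset Pool.Agent.helper52.DJ Pool.Agent.helper52.DM

universe u

variable {V : Type u} {A : Type*} [Fintype V] [DecidableEq V] [Fintype A] [DecidableEq A]

omit [Fintype V] [DecidableEq A] in
lemma wt_mono_pos (D : DG V A) (w x : A → ℕ) (hx : ∀ a, x a ≤ w a) {U U' : Finset V}
    (h : posOut D w U' ⊆ posOut D w U) : D.wt x U' ≤ D.wt x U := by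
  have e : ∀ W : Finset V, D.wt x W = ∑ a ∈ posOut D w W, x a := by
    intro W
    rw [DG.wt, posOut]
    symm
    apply sum_filter_of_ne
    intro a _ ha
    have := hx a
    omega
  rw [e, e]
  exact sum_le_sum_of_subset h

/-- The decomposition: it exists if every inclusion-minimal dicut splits a component of the positive-weight
graph in which its shore contains no vertex of `Y` or all vertices of `X`. -/
theorem decomposition_zero (D : DG V A) (w : A → ℕ) (X Y : Finset V) (τ : ℕ) (hτ : 2 ≤ τ)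
    (hXY : ∀ U : Finset V, U.Nonempty → U ≠ univ → (∀ a, 0 < w a → D.head a ∈ U → D.tail a ∈ U) →
      (Disjoint U Y ∨ X ⊆ U) → τ ≤ D.wt w U)
    (hD : ∀ U, D.IsShore U → (∀ U', D.IsShore U' → posOut D w U' ⊆ posOut D w U → posOut D w U' = posOut D w U) →
      ∃ u ∈ U, ∃ v, v ∉ U ∧ Conn D w u v ∧
        ((∀ y ∈ Y, Conn D w u y → y ∉ U) ∨ (∀ x ∈ X, Conn D w u x → x ∈ U))) :
    ∃ c c' : A → ℕ, (∀ a, w a = c a + c' a) ∧ (∀ U, D.IsShore U → 1 ≤ D.wt c U) ∧
      (∀ U, D.IsShore U → τ - 1 ≤ D.wt c' U) := by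
  classical
  obtain ⟨c, c', h1, h2⟩ :=
    glue (fun V' _ _ D w X Y τ hτ h => core w τ hτ _ V' D X Y rfl h) D w X Y τ hτ hXY
  have key : ∀ U, D.IsShore U → 1 ≤ D.wt c U ∧ τ - 1 ≤ D.wt c' U := by
    intro U hU
    obtain ⟨U', hU', hmin⟩ := exists_min_image
      (univ.filter fun U' => D.IsShore U' ∧ posOut D w U' ⊆ posOut D w U) (fun U' => (posOut D w U').card)
      ⟨U, by rw [mem_filter]; exact ⟨mem_univ _, hU, Subset.refl _⟩⟩
    rw [mem_filter] at hU'
    obtain ⟨_, hU's, hsub⟩ := hU'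
    have hm : ∀ W, D.IsShore W → posOut D w W ⊆ posOut D w U' → posOut D w W = posOut D w U' := by
      intro W hW hWU
      refine eq_of_subset_of_card_le hWU (hmin W ?_)
      rw [mem_filter]
      exact ⟨mem_univ _, hW, hWU.trans hsub⟩
    obtain ⟨g1, g2⟩ := h2 U' hU's (hD U' hU's hm)
    exact ⟨g1.trans (wt_mono_pos D w c (fun a => by have := h1 a; omega) hsub),
      g2.trans (wt_mono_pos D w c' (fun a => by have := h1 a; omega) hsub)⟩
  exact ⟨c, c', h1, fun U hU => (key U hU).1, fun U hU => (key U hU).2⟩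

/-- **Main theorem.** -/
theorem zero_arcs (D : DG V A) (w : A → ℕ) (hC : (D.clutter w).MinNonPacking) (X Y : Finset V)
    (hXY : ∀ U : Finset V, U.Nonempty → U ≠ univ → (∀ a, 0 < w a → D.head a ∈ U → D.tail a ∈ U) →
      (Disjoint U Y ∨ X ⊆ U) → ∃ U0, D.IsShore U0 ∧ D.wt w U0 ≤ D.wt w U) :
    ∃ U, D.IsShore U ∧
      (∀ U', D.IsShore U' → posOut D w U' ⊆ posOut D w U → posOut D w U' = posOut D w U) ∧
      ∀ u ∈ U, ∀ v, v ∉ U → Conn D w u v →
        (∃ y ∈ Y, Conn D w u y ∧ y ∈ U) ∧ ∃ x ∈ X, Conn D w u x ∧ x ∉ U := by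
  classical
  by_contra hcon
  push Not at hcon
  obtain ⟨⟨U1, hU1⟩, htwo⟩ := two_le_of_minNonPacking D w hC
  obtain ⟨U0, hU0, hmin⟩ := exists_min_image (univ.filter fun U => D.IsShore U) (D.wt w)
    ⟨U1, by rw [mem_filter]; exact ⟨mem_univ _, hU1⟩⟩
  rw [mem_filter] at hU0
  have hmin' : ∀ U, D.IsShore U → D.wt w U0 ≤ D.wt w U := fun U hU =>
    hmin U (by rw [mem_filter]; exact ⟨mem_univ _, hU⟩)
  have h2 := htwo U0 hU0.2
  obtain ⟨c, c', h1, h3, h4⟩ := decomposition_zero D w X Y (D.wt w U0) h2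
    (fun U a b c d => by
      obtain ⟨U2, hU2, hle⟩ := hXY U a b c d
      exact (hmin' U2 hU2).trans hle) (fun U hU hm => by
      obtain ⟨u, hu, v, hv, huv, halt⟩ := hcon U hU hm
      refine ⟨u, hu, v, hv, huv, ?_⟩
      by_cases h : ∃ y ∈ Y, Conn D w u y ∧ y ∈ U
      · exact Or.inr (halt h)
      · push Not at h
        exact Or.inl h)
  exact no_decomposition D w hC (D.wt w U0) h2 hU0.2 rfl c c' h1 h3 h4

/-- The main theorem for the tails and heads of the arcs of weight zero. -/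
theorem zero_arcs' (D : DG V A) (w : A → ℕ) (hC : (D.clutter w).MinNonPacking) :
    ∃ U, D.IsShore U ∧ (posOut D w U).Nonempty ∧
      (∀ U', D.IsShore U' → posOut D w U' ⊆ posOut D w U → posOut D w U' = posOut D w U) ∧
      ∀ u ∈ U, ∀ v, v ∉ U → Conn D w u v →
        (∃ b, w b = 0 ∧ Conn D w u (D.head b) ∧ D.head b ∈ U) ∧
          ∃ a, w a = 0 ∧ Conn D w u (D.tail a) ∧ D.tail a ∉ U := by
  classical
  obtain ⟨U, h1, h2, h3⟩ := zero_arcs D w hC ((univ.filter fun a => w a = 0).image D.tail)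
    ((univ.filter fun a => w a = 0).image D.head) (by
      intro U hne hnu hpos hok
      refine ⟨U, ⟨hne, hnu, fun a ha => ?_⟩, le_rfl⟩
      rcases Nat.eq_zero_or_pos (w a) with h0 | h0
      · rcases hok with hok | hok
        · exact absurd (mem_image_of_mem _ (by rw [mem_filter]; exact ⟨mem_univ _, h0⟩))
            (disjoint_left.1 hok ha)
        · exact hok (mem_image_of_mem _ (by rw [mem_filter]; exact ⟨mem_univ _, h0⟩))
      · exact hpos a h0 ha)
  have h4 : (posOut D w U).Nonempty := by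
    by_contra hcon
    rw [not_nonempty_iff_eq_empty] at hcon
    have h5 := (two_le_of_minNonPacking D w hC).2 U h1
    have h6 : D.wt w U = 0 := by
      refine sum_eq_zero fun a ha => ?_
      by_contra h0
      have : a ∈ posOut D w U := by
        rw [posOut, mem_filter]
        exact ⟨ha, by omega⟩
      rw [hcon] at this
      exact absurd this (notMem_empty a)
    omega
  refine ⟨U, h1, h4, h2, fun u hu v hv huv => ?_⟩
  obtain ⟨⟨y, hy, hy1, hy2⟩, x, hx, hx1, hx2⟩ := h3 u hu v hv huv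
  obtain ⟨b, hb, rfl⟩ := mem_image.1 hy
  obtain ⟨a, ha, rfl⟩ := mem_image.1 hx
  exact ⟨⟨b, (mem_filter.1 hb).2, hy1, hy2⟩, a, (mem_filter.1 ha).2, hx1, hx2⟩

end Pool.Agent.helper52.ZA
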