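import Pool.Agent.helper52.ZA.Dir2

/-!
# An integral net vector
-/

namespace Pool.Agent.helper52.ZA

open Finset Pool.Agent.helper52.DJ Pool.Agent.helper52.DM

section chi
variable {V : Type*}

open Classical in
/-- `1` for the sets disjoint from `Y` or containing `X` -/
noncomputable def chi (X Y U : Finset V) : ℤ := if Disjoint U Y ∨ X ⊆ U then 1 else 0

lemma chi_of {X Y U : Finset V} (h : Disjoint U Y ∨ X ⊆ U) : chi X Y U = 1 := if_pos h

lemma chi_not {X Y U : Finset V} (h : ¬ (Disjoint U Y ∨ X ⊆ U)) : chi X Y U = 0 := if_neg h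

lemma chi_nonneg (X Y U : Finset V) : 0 ≤ chi X Y U := by
  unfold chi; split_ifs <;> norm_num

lemma chi_le (X Y U : Finset V) : chi X Y U ≤ 1 := by
  unfold chi; split_ifs <;> norm_num

end chi

variable {V A : Type*} [Fintype V] [DecidableEq V] [Fintype A] [DecidableEq A]

/-- the lower bound for the net vectors -/
noncomputable def p1 (D : DG V A) (w : A → ℕ) (X Y U : Finset V) : ℤ := chi X Y U - (win D w U : ℤ)

omit [Fintype V] [DecidableEq A] in
lemma win_eq (D : DG V A) (w : A → ℕ) (U : Finset V) :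
    win D w U = ∑ a, if D.tail a ∉ U ∧ D.head a ∈ U then w a else 0 := by
  rw [win, sum_filter]

omit [Fintype V] [DecidableEq A] in
lemma wt_eq' (D : DG V A) (w : A → ℕ) (U : Finset V) :
    D.wt w U = ∑ a, if D.tail a ∈ U ∧ D.head a ∉ U then w a else 0 := by
  rw [DG.wt, DG.out, sum_filter]

omit [Fintype V] [DecidableEq A] in
lemma win_submod (D : DG V A) (w : A → ℕ) (U W : Finset V) :
    win D w (U ∩ W) + win D w (U ∪ W) ≤ win D w U + win D w W := by
  simp only [win_eq]
  rw [← sum_add_distrib, ← sum_add_distrib]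
  refine sum_le_sum fun a _ => ?_
  simp only [mem_inter, mem_union]
  by_cases h1 : D.tail a ∈ U <;> by_cases h2 : D.tail a ∈ W <;> by_cases h3 : D.head a ∈ U <;>
    by_cases h4 : D.head a ∈ W <;> simp [h1, h2, h3, h4]

omit [Fintype V] in
lemma chi_supermod (X Y U W : Finset V) :
    chi X Y U + chi X Y W ≤ chi X Y (U ∩ W) + chi X Y (U ∪ W) := by
  have n1 := chi_nonneg X Y (U ∩ W)
  have n2 := chi_nonneg X Y (U ∪ W)
  by_cases hU : Disjoint U Y ∨ X ⊆ U
  · by_cases hW : Disjoint W Y ∨ X ⊆ W
    · have e1 : chi X Y (U ∩ W) = 1 := by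
        apply chi_of
        rcases hU with hU | hU
        · exact Or.inl (hU.mono_left inter_subset_left)
        · rcases hW with hW | hW
          · exact Or.inl (hW.mono_left inter_subset_right)
          · exact Or.inr (subset_inter hU hW)
      have e2 : chi X Y (U ∪ W) = 1 := by
        apply chi_of
        rcases hU with hU | hU
        · rcases hW with hW | hW
          · exact Or.inl (disjoint_union_left.2 ⟨hU, hW⟩)
          · exact Or.inr (hW.trans subset_union_right)
        · exact Or.inr (hU.trans subset_union_left)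
      rw [e1, e2, chi_of hU, chi_of hW]
    · rw [chi_of hU, chi_not hW]
      rcases hU with hU | hU
      · rw [chi_of (Or.inl (hU.mono_left inter_subset_left) : Disjoint (U ∩ W) Y ∨ X ⊆ U ∩ W)]
        linarith
      · rw [chi_of (Or.inr (hU.trans subset_union_left) : Disjoint (U ∪ W) Y ∨ X ⊆ U ∪ W)]
        linarith
  · by_cases hW : Disjoint W Y ∨ X ⊆ W
    · rw [chi_of hW, chi_not hU]
      rcases hW with hW | hW
      · rw [chi_of (Or.inl (hW.mono_left inter_subset_right) : Disjoint (U ∩ W) Y ∨ X ⊆ U ∩ W)]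
        linarith
      · rw [chi_of (Or.inr (hW.trans subset_union_right) : Disjoint (U ∪ W) Y ∨ X ⊆ U ∪ W)]
        linarith
    · rw [chi_not hU, chi_not hW]; linarith

omit [Fintype V] [DecidableEq A] in
lemma p1_supermod (D : DG V A) (w : A → ℕ) (X Y U W : Finset V) :
    p1 D w X Y U + p1 D w X Y W ≤ p1 D w X Y (U ∩ W) + p1 D w X Y (U ∪ W) := by
  have h' : (win D w (U ∩ W) : ℤ) + win D w (U ∪ W) ≤ win D w U + win D w W := by
    exact_mod_cast win_submod D w U W
  have key := chi_supermod X Y U W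
  simp only [p1]
  linarith

omit [Fintype A] [DecidableEq A] in
lemma sh_crossing (D : DG V A) (w : A → ℕ) (X Y : Finset V) : IsCrossing {U | Sh D w X Y U} := by
  refine ⟨fun U hU => hU.nonempty, fun U hU => hU.ne_univ, ?_, ?_⟩
  · intro U hU W hW hi hu
    refine ⟨hi, fun h => hU.ne_univ ?_, fun a ha hh => ?_, ?_⟩
    · rw [eq_univ_iff_forall] at h ⊢
      exact fun v => (mem_inter.1 (h v)).1
    · rw [mem_inter] at hh ⊢
      exact ⟨hU.closed a ha hh.1, hW.closed a ha hh.2⟩
    · rcases hU.ok with h | h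
      · exact Or.inl (h.mono_left inter_subset_left)
      · rcases hW.ok with h' | h'
        · exact Or.inl (h'.mono_left inter_subset_right)
        · exact Or.inr (subset_inter h h')
  · intro U hU W hW hi hu
    refine ⟨hU.nonempty.mono subset_union_left, hu, fun a ha hh => ?_, ?_⟩
    · rw [mem_union] at hh ⊢
      rcases hh with hh | hh
      · exact Or.inl (hU.closed a ha hh)
      · exact Or.inr (hW.closed a ha hh)
    · rcases hU.ok with h | h
      · rcases hW.ok with h' | h'
        · exact Or.inl (disjoint_union_left.2 ⟨h, h'⟩)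
        · exact Or.inr (h'.trans subset_union_right)
      · exact Or.inr (h.trans subset_union_left)

omit [Fintype V] [DecidableEq A] in
/-- the sum of the net outflows over a set -/
lemma sum_dem (D : DG V A) (x : A → ℕ) (U : Finset V) :
    ∑ v ∈ U, D.net (fun a => (x a : ℤ)) v = (D.wt x U : ℤ) - win D x U := by
  rw [sum_net, wt_eq', win_eq, sum_filter, sum_filter]
  push_cast
  rw [← sum_sub_distrib, ← sum_sub_distrib]
  refine sum_congr rfl fun a _ => ?_
  by_cases h1 : D.tail a ∈ U <;> by_cases h2 : D.head a ∈ U <;> simp [h1, h2]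

omit [DecidableEq A] in
lemma win_zero (D : DG V A) (w x : A → ℕ) (hx : ∀ a, x a ≤ w a) {X Y U : Finset V} (hU : Sh D w X Y U) :
    win D x U = 0 := by
  rw [win]
  refine sum_eq_zero fun a ha => ?_
  rw [mem_filter] at ha
  by_contra hcon
  have : 0 < w a := by have := hx a; omega
  exact ha.2.1 (hU.closed a this ha.2.2)

/-- the constraints -/
abbrev CJ (V : Type*) := Unit ⊕ Unit ⊕ (Finset V) ⊕ (Finset V)

/-- evaluation of the sum over a set -/
noncomputable def ev (U : Finset V) : (V → ℝ) →ₗ[ℝ] ℝ where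
  toFun y := ∑ v ∈ U, y v
  map_add' y z := by simp [sum_add_distrib]
  map_smul' r y := by simp [mul_sum]

omit [Fintype V] [DecidableEq V] in
@[simp] lemma ev_apply (U : Finset V) (y : V → ℝ) : ev U y = ∑ v ∈ U, y v := rfl

open Classical in
/-- left sides -/
noncomputable def jl (D : DG V A) (w : A → ℕ) (X Y : Finset V) : CJ V → (V → ℝ) →ₗ[ℝ] ℝ
  | Sum.inl _ => ev univ
  | Sum.inr (Sum.inl _) => - ev univ
  | Sum.inr (Sum.inr (Sum.inl U)) => if U.Nonempty ∧ U ≠ univ then ev U else 0
  | Sum.inr (Sum.inr (Sum.inr U)) => if Sh D w X Y U then - ev U else 0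

open Classical in
/-- right sides -/
noncomputable def jr (D : DG V A) (w : A → ℕ) (X Y : Finset V) (τ : ℕ) : CJ V → ℝ
  | Sum.inl _ => 0
  | Sum.inr (Sum.inl _) => 0
  | Sum.inr (Sum.inr (Sum.inl U)) => if U.Nonempty ∧ U ≠ univ then ((p1 D w X Y U : ℤ) : ℝ) else 0
  | Sum.inr (Sum.inr (Sum.inr U)) => if Sh D w X Y U then - ((D.wt w U : ℝ) - (τ - 1)) else 0

/-- feasibility -/
structure FeasJ (D : DG V A) (w : A → ℕ) (X Y : Finset V) (τ : ℕ) (z : V → ℝ) : Prop where
  sum : ∑ v, z v = 0
  lo : ∀ U : Finset V, U.Nonempty → U ≠ univ → ((p1 D w X Y U : ℤ) : ℝ) ≤ ∑ v ∈ U, z v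
  hi : ∀ U, Sh D w X Y U → ∑ v ∈ U, z v ≤ (D.wt w U : ℝ) - (τ - 1)

omit [DecidableEq A] in
lemma feasJ_iff (D : DG V A) (w : A → ℕ) (X Y : Finset V) (τ : ℕ) (z : V → ℝ) :
    FeasJ D w X Y τ z ↔ ∀ j, jr D w X Y τ j ≤ jl D w X Y j z := by
  constructor
  · intro h j
    rcases j with u | u | U | U
    · simp only [jr, jl, ev_apply]; rw [h.sum]
    · simp only [jr, jl, LinearMap.neg_apply, ev_apply]; rw [h.sum]; simp
    · simp only [jr, jl]
      split_ifs with hU
      · exact h.lo U hU.1 hU.2
      · simp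
    · simp only [jr, jl]
      split_ifs with hU
      · have := h.hi U hU
        simp only [LinearMap.neg_apply, ev_apply]
        linarith
      · simp
  · intro h
    refine ⟨?_, fun U h1 h2 => ?_, fun U hU => ?_⟩
    · have h1 := h (Sum.inl ())
      have h2 := h (Sum.inr (Sum.inl ()))
      simp only [jr, jl, LinearMap.neg_apply, ev_apply] at h1 h2
      linarith
    · have := h (Sum.inr (Sum.inr (Sum.inl U)))
      simpa [jr, jl, h1, h2] using this
    · have := h (Sum.inr (Sum.inr (Sum.inr U)))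
      simp only [jr, jl, if_pos hU, LinearMap.neg_apply, ev_apply] at this
      linarith

end Pool.Agent.helper52.ZA
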