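import Pool.Agent.helper52.ZA.Int

/-!
# An integral net vector, continued
-/

namespace Pool.Agent.helper52.ZA

open Finset Pool.Agent.helper52.DJ Pool.Agent.helper52.DM

variable {V A : Type*} [Fintype V] [DecidableEq V] [Fintype A] [DecidableEq A]

omit [DecidableEq A] in
lemma t1_crossing (D : DG V A) (w : A → ℕ) (X Y : Finset V) (x : V → ℝ)
    (hx : ∀ U : Finset V, U.Nonempty → U ≠ univ → ((p1 D w X Y U : ℤ) : ℝ) ≤ ∑ v ∈ U, x v) :
    IsCrossing {U : Finset V | (U.Nonempty ∧ U ≠ univ) ∧ ∑ v ∈ U, x v = ((p1 D w X Y U : ℤ) : ℝ)} := by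
  have key : ∀ U W : Finset V, (U.Nonempty ∧ U ≠ univ) ∧ ∑ v ∈ U, x v = ((p1 D w X Y U : ℤ) : ℝ) →
      (W.Nonempty ∧ W ≠ univ) ∧ ∑ v ∈ W, x v = ((p1 D w X Y W : ℤ) : ℝ) → (U ∩ W).Nonempty →
      U ∪ W ≠ univ → (((U ∩ W).Nonempty ∧ U ∩ W ≠ univ) ∧
        ∑ v ∈ U ∩ W, x v = ((p1 D w X Y (U ∩ W) : ℤ) : ℝ)) ∧
      (((U ∪ W).Nonempty ∧ U ∪ W ≠ univ) ∧ ∑ v ∈ U ∪ W, x v = ((p1 D w X Y (U ∪ W) : ℤ) : ℝ)) := by
    intro U W hU hW hi hu
    have hni : U ∩ W ≠ univ := fun h => hU.1.2 (by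
      rw [eq_univ_iff_forall] at h ⊢
      exact fun v => (mem_inter.1 (h v)).1)
    have hnu : (U ∪ W).Nonempty := hU.1.1.mono subset_union_left
    have a1 := hx (U ∩ W) hi hni
    have a2 := hx (U ∪ W) hnu hu
    have e := sum_union_inter (s₁ := U) (s₂ := W) (f := x)
    have s : ((p1 D w X Y U : ℤ) : ℝ) + ((p1 D w X Y W : ℤ) : ℝ)
        ≤ ((p1 D w X Y (U ∩ W) : ℤ) : ℝ) + ((p1 D w X Y (U ∪ W) : ℤ) : ℝ) := by
      exact_mod_cast p1_supermod D w X Y U W
    have h1 := hU.2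
    have h2 := hW.2
    exact ⟨⟨⟨hi, hni⟩, by linarith⟩, ⟨⟨hnu, hu⟩, by linarith⟩⟩
  exact ⟨fun U hU => hU.1.1, fun U hU => hU.1.2, fun U hU W hW hi hu => (key U W hU hW hi hu).1,
    fun U hU W hW hi hu => (key U W hU hW hi hu).2⟩

omit [DecidableEq A] in
lemma sum_dem_sh (D : DG V A) (w : A → ℕ) {X Y U : Finset V} (hU : Sh D w X Y U) :
    ∑ v ∈ U, ((D.net (fun a => (w a : ℤ)) v : ℤ) : ℝ) = (D.wt w U : ℝ) := by
  have h := sum_dem D w U
  rw [win_zero D w w (fun _ => le_rfl) hU] at h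
  have h' : ((∑ v ∈ U, D.net (fun a => (w a : ℤ)) v : ℤ) : ℝ) = ((D.wt w U : ℤ) : ℝ) := by
    rw [h]; simp
  push_cast at h'
  exact h'

omit [DecidableEq A] in
lemma t2_crossing (D : DG V A) (w : A → ℕ) (X Y : Finset V) (τ : ℕ) (x : V → ℝ)
    (hx : ∀ U, Sh D w X Y U → ∑ v ∈ U, x v ≤ (D.wt w U : ℝ) - (τ - 1)) :
    IsCrossing {U : Finset V | Sh D w X Y U ∧ ∑ v ∈ U, x v = (D.wt w U : ℝ) - (τ - 1)} := by
  have h := isCrossing_tight (sh_crossing D w X Y)
    (fun v => ((D.net (fun a => (w a : ℤ)) v : ℤ) : ℝ) - x v) ((τ : ℝ) - 1) (by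
      intro U hU
      rw [sum_sub_distrib, sum_dem_sh D w hU]
      have := hx U hU
      linarith)
  have e : {U : Finset V | U ∈ {U | Sh D w X Y U} ∧
      ∑ v ∈ U, (((D.net (fun a => (w a : ℤ)) v : ℤ) : ℝ) - x v) = (τ : ℝ) - 1}
      = {U : Finset V | Sh D w X Y U ∧ ∑ v ∈ U, x v = (D.wt w U : ℝ) - (τ - 1)} := by
    ext U
    constructor
    · rintro ⟨h1, h2⟩
      refine ⟨h1, ?_⟩
      rw [sum_sub_distrib, sum_dem_sh D w h1] at h2
      linarith
    · rintro ⟨h1, h2⟩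
      refine ⟨h1, ?_⟩
      rw [sum_sub_distrib, sum_dem_sh D w h1]
      linarith
  rw [e] at h
  exact h

omit [DecidableEq A] in
theorem exists_feasJ_int (D : DG V A) (w : A → ℕ) (X Y : Finset V) (τ : ℕ) (z0 : V → ℝ)
    (h0 : FeasJ D w X Y τ z0) : ∃ z : V → ℤ, FeasJ D w X Y τ (fun v => (z v : ℝ)) := by
  classical
  have h := mem_hull (jl D w X Y) (jr D w X Y τ) {z : V → ℝ | ∀ v, IsInt (z v)} (by
      intro y hy
      by_cases hs : ∑ v, y v = 0
      · have hv : ∃ v, y v < 0 := by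
          by_contra hcon
          push Not at hcon
          apply hy
          funext v
          exact (sum_eq_zero_iff_of_nonneg (fun v _ => hcon v)).1 hs v (mem_univ v)
        obtain ⟨v, hv⟩ := hv
        refine ⟨Sum.inr (Sum.inr (Sum.inl {v})), ?_⟩
        have hne : ({v} : Finset V) ≠ univ := by
          intro h
          rw [← h, sum_singleton] at hs
          linarith
        simp only [jl]
        rw [if_pos ⟨singleton_nonempty v, hne⟩]
        simpa using hv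
      · rcases lt_or_gt_of_ne hs with h | h
        · exact ⟨Sum.inl (), by simpa [jl] using h⟩
        · exact ⟨Sum.inr (Sum.inl ()), by simpa [jl] using h⟩)
    (by
      intro x hx hxI
      rw [← feasJ_iff] at hx
      simp only [Set.mem_ofPred_eq, not_forall] at hxI
      obtain ⟨y, hy0, h1, h2, h3⟩ := direction2 (t1_crossing D w X Y x hx.lo) (t2_crossing D w X Y τ x hx.hi)
        x hx.sum (fun U hU => ⟨p1 D w X Y U, hU.2⟩)
        (fun U hU => ⟨(D.wt w U : ℤ) - (τ - 1), by rw [hU.2]; push_cast; ring⟩) hxI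
      refine ⟨y, hy0, fun j hj => ?_⟩
      rcases j with u | u | U | U
      · simpa [jl] using h1
      · simpa [jl] using h1
      · simp only [jl, jr] at hj ⊢
        split_ifs at hj ⊢ with hU
        · exact h2 U ⟨hU, by simpa using hj⟩
        · rfl
      · simp only [jl, jr] at hj ⊢
        split_ifs at hj ⊢ with hU
        · have := h3 U ⟨hU, by
            simp only [LinearMap.neg_apply, ev_apply] at hj
            linarith⟩
          simp [this]
        · rfl) _ z0 ((feasJ_iff D w X Y τ z0).1 h0) rfl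
  have hne := convexHull_nonempty_iff.1 ⟨z0, h⟩
  obtain ⟨x, hx, hxI⟩ := hne
  choose k hk using hxI
  refine ⟨k, ?_⟩
  have e : (fun v => (k v : ℝ)) = x := funext fun v => (hk v).symm
  rw [e, feasJ_iff]
  exact hx

end Pool.Agent.helper52.ZA
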