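import Pool.Agent.helper52.ZA.Final

/-!
# Contraction of the good components
-/

namespace Pool.Agent.helper52.ZA

open Finset Pool.Agent.helper52.DJ Pool.Agent.helper52.DM

universe u

section quot
variable {V : Type u} {A : Type*} [Fintype V] [DecidableEq V] [Fintype A] [DecidableEq A]

/-- the class of a vertex -/
def qm (f : V → V) (hf : ∀ v, f (f v) = f v) (v : V) : {v : V // f v = v} := ⟨f v, hf v⟩

omit [Fintype V] [DecidableEq V] in
lemma qm_self (f : V → V) (hf : ∀ v, f (f v) = f v) (v : {v : V // f v = v}) : qm f hf v = v :=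
  Subtype.ext v.2

/-- the quotient digraph -/
def qD (D : DG V A) (f : V → V) (hf : ∀ v, f (f v) = f v) : DG {v : V // f v = v} A :=
  ⟨fun a => qm f hf (D.tail a), fun a => qm f hf (D.head a)⟩

/-- preimage -/
def qpre (f : V → V) (hf : ∀ v, f (f v) = f v) (U : Finset {v : V // f v = v}) : Finset V :=
  univ.filter fun v => qm f hf v ∈ U

omit [DecidableEq V] in
lemma mem_qpre [DecidableEq V] (f : V → V) (hf : ∀ v, f (f v) = f v) (U : Finset {v : V // f v = v}) (v : V) :
    v ∈ qpre f hf U ↔ qm f hf v ∈ U := by simp [qpre]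

omit [DecidableEq A] in
lemma wt_q (D : DG V A) (f : V → V) (hf : ∀ v, f (f v) = f v) (x : A → ℕ) (U : Finset {v : V // f v = v}) :
    (qD D f hf).wt x U = D.wt x (qpre f hf U) := by
  rw [wt_eq', wt_eq']
  refine sum_congr rfl fun a _ => ?_
  simp only [mem_qpre, qD]
  congr

omit [Fintype A] [DecidableEq A] in
lemma shore_q (D : DG V A) (f : V → V) (hf : ∀ v, f (f v) = f v) (U : Finset {v : V // f v = v}) :
    (qD D f hf).IsShore U ↔ D.IsShore (qpre f hf U) := by
  constructor
  · intro hU
    refine ⟨?_, ?_, ?_⟩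
    · obtain ⟨v, hv⟩ := hU.1
      exact ⟨v, by rw [mem_qpre, qm_self]; exact hv⟩
    · intro he
      apply hU.2.1
      rw [eq_univ_iff_forall] at he ⊢
      intro v
      have := he v
      rwa [mem_qpre, qm_self] at this
    · intro a hh
      rw [mem_qpre] at hh ⊢
      exact hU.2.2 a hh
  · intro hU
    refine ⟨?_, ?_, ?_⟩
    · obtain ⟨v, hv⟩ := hU.1
      exact ⟨_, (mem_qpre f hf U v).1 hv⟩
    · intro he
      apply hU.2.1
      rw [eq_univ_iff_forall] at he ⊢
      intro v
      rw [mem_qpre]
      exact he _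
    · intro a hh
      have := hU.2.2 a ((mem_qpre f hf U _).2 hh)
      exact (mem_qpre f hf U _).1 this

omit [DecidableEq A] in
lemma dem_q (D : DG V A) (f : V → V) (hf : ∀ v, f (f v) = f v) (w : A → ℕ) (n : {v : V // f v = v}) :
    (qD D f hf).dem w n = ∑ v ∈ univ.filter (fun v => qm f hf v = n), D.dem w v := by
  simp only [DG.dem]
  rw [sum_net_fiber D (fun a => (w a : ℤ)) (qm f hf) n]
  rfl

end quot

section bad
variable {V : Type u} {A : Type*} [Fintype V] [DecidableEq V] [Fintype A] [DecidableEq A]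

/-- `D` has a directed path from `x` to `y` -/
def DReach (D : DG V A) : V → V → Prop := Relation.ReflTransGen fun x y => ∃ a, D.tail a = x ∧ D.head a = y

omit [DecidableEq V] [Fintype A] [DecidableEq A] in
lemma mem_of_dreach [DecidableEq V] (D : DG V A) {x y : V} (h : DReach D x y) (U : Finset V) (hU : D.IsShore U) (hy : y ∈ U) :
    x ∈ U := by
  induction h with
  | refl => exact hy
  | tail h1 h2 ih =>
    obtain ⟨a, ha, hb⟩ := h2
    apply ih
    rw [← ha]
    exact hU.2.2 a (by rw [hb]; exact hy)

open Classical in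
/-- the vertices `v` whose component contains the tail `x` of an arc of weight zero and the head `y` of an arc
of weight zero such that `x` does not reach `y` -/
noncomputable def bad (D : DG V A) (w : A → ℕ) : Finset V :=
  univ.filter fun v => ∃ a b, w a = 0 ∧ w b = 0 ∧ Conn D w v (D.tail a) ∧ Conn D w v (D.head b) ∧
    ¬ DReach D (D.tail a) (D.head b)

omit [DecidableEq V] [DecidableEq A] in
lemma mem_bad (D : DG V A) (w : A → ℕ) (v : V) : v ∈ bad D w ↔
    ∃ a b, w a = 0 ∧ w b = 0 ∧ Conn D w v (D.tail a) ∧ Conn D w v (D.head b) ∧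
      ¬ DReach D (D.tail a) (D.head b) := by simp [bad]

omit [DecidableEq V] [DecidableEq A] in
lemma bad_conn (D : DG V A) (w : A → ℕ) {u v : V} (h : Conn D w u v) : u ∈ bad D w ↔ v ∈ bad D w := by
  rw [mem_bad, mem_bad]
  constructor
  · rintro ⟨a, b, h1, h2, h3, h4, h5⟩
    exact ⟨a, b, h1, h2, conn_trans D w (conn_symm D w h) h3, conn_trans D w (conn_symm D w h) h4, h5⟩
  · rintro ⟨a, b, h1, h2, h3, h4, h5⟩
    exact ⟨a, b, h1, h2, conn_trans D w h h3, conn_trans D w h h4, h5⟩

omit [DecidableEq V] [Fintype A] [DecidableEq A] in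
/-- representatives of the components -/
lemma exists_rep (D : DG V A) (w : A → ℕ) : ∃ r : V → V, (∀ v, Conn D w v (r v)) ∧
    ∀ u v, Conn D w u v → r u = r v := by
  have hch : ∀ (K K' : Finset V) (h : ∃ r, comp D w r = K) (h' : ∃ r, comp D w r = K'), K = K' →
      Classical.choose h = Classical.choose h' := by
    rintro K _ h h' rfl
    rfl
  have hex : ∀ v, ∃ r, comp D w r = comp D w v := fun v => ⟨v, rfl⟩
  refine ⟨fun v => Classical.choose (hex v), fun v => ?_, fun u v h => hch _ _ (hex u) (hex v) (comp_eq D w h)⟩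
  have h1 : comp D w (Classical.choose (hex v)) = comp D w v := Classical.choose_spec (hex v)
  rw [← mem_comp, ← h1, mem_comp]
  exact conn_refl D w _

/-- the contraction map -/
noncomputable def cmap (D : DG V A) (w : A → ℕ) (r : V → V) (v : V) : V := if v ∈ bad D w then v else r v

end bad

end Pool.Agent.helper52.ZA
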