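import Pool.Agent.helper52.ZA.Comb

/-!
# Residue bounds for the bad components
-/

namespace Pool.Agent.helper52.ZA

open Finset Pool.Agent.helper52.DJ Pool.Agent.helper52.DM

universe u

variable {V : Type u} {A : Type*} [Fintype V] [DecidableEq V] [Fintype A] [DecidableEq A]

lemma rho_q (D : DG V A) (w : A → ℕ) {r : V → V} (hr : IsRep D w r) (τ : ℕ) (hτ : τ ≠ 0) :
    (qD D (cmap D w r) (cmap_idem D w hr)).rho w τ * τ = ∑ v ∈ bad D w, D.dem w v % (τ : ℤ) := by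
  set Dq := qD D (cmap D w r) (cmap_idem D w hr) with hDq
  have h := sum_q D w hr (fun x => x % (τ : ℤ)) (by simp)
  rw [← h]
  have h' := rho_eq Dq w τ hτ
  have hs : ∑ v, Dq.dem w v = 0 := sum_net_univ Dq _
  have : ∑ v, Dq.dem w v = (τ : ℤ) * ∑ v, Dq.dem w v / (τ : ℤ) + ∑ v, Dq.dem w v % (τ : ℤ) := by
    rw [mul_sum, ← sum_add_distrib]
    refine sum_congr rfl fun v _ => (Int.mul_ediv_add_emod _ _).symm
  rw [hs] at this
  rw [h']
  linarith

lemma rho_q' (D : DG V A) (w : A → ℕ) {r : V → V} (hr : IsRep D w r) (τ : ℕ) (hτ : τ ≠ 0) :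
    (qD D (cmap D w r) (cmap_idem D w hr)).rev.rho w τ * τ = ∑ v ∈ bad D w, (- D.dem w v) % (τ : ℤ) := by
  set Dq := qD D (cmap D w r) (cmap_idem D w hr) with hDq
  have h := sum_q D w hr (fun x => (-x) % (τ : ℤ)) (by simp)
  rw [← h]
  have h' := rho_eq Dq.rev w τ hτ
  have hs : ∑ v, Dq.rev.dem w v = 0 := sum_net_univ Dq.rev _
  have : ∑ v, Dq.rev.dem w v = (τ : ℤ) * ∑ v, Dq.rev.dem w v / (τ : ℤ) + ∑ v, Dq.rev.dem w v % (τ : ℤ) := by
    rw [mul_sum, ← sum_add_distrib]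
    refine sum_congr rfl fun v _ => (Int.mul_ediv_add_emod _ _).symm
  rw [hs] at this
  have e3 : ∑ v, Dq.rev.dem w v % (τ : ℤ) = ∑ n, (- Dq.dem w n) % (τ : ℤ) :=
    sum_congr rfl fun n _ => by rw [dem_rev]
  rw [e3] at this
  rw [h']
  linarith

lemma nres_q (D : DG V A) (w : A → ℕ) {r : V → V} (hr : IsRep D w r) (τ : ℕ) :
    (nres (qD D (cmap D w r) (cmap_idem D w hr)) w τ).card
      = ((bad D w).filter fun v => ¬ (τ : ℤ) ∣ D.dem w v).card := by
  have h := sum_q D w hr (fun x => if ¬ (τ : ℤ) ∣ x then 1 else 0) (by simp)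
  have e3 : ((nres (qD D (cmap D w r) (cmap_idem D w hr)) w τ).card : ℤ)
      = (((bad D w).filter fun v => ¬ (τ : ℤ) ∣ D.dem w v).card : ℤ) := by
    rw [nres, card_filter, card_filter]
    push_cast
    convert h using 1
  exact_mod_cast e3

/-- the sum of the residues modulo `τ` of the net outflows of the vertices of bad components, divided by `τ` -/
noncomputable def rhoBad (D : DG V A) (w : A → ℕ) (τ : ℕ) : ℤ := (∑ v ∈ bad D w, D.dem w v % (τ : ℤ)) / τ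

/-- the sum of the residues modulo `τ` of the net inflows of the vertices of bad components, divided by `τ` -/
noncomputable def rhoBad' (D : DG V A) (w : A → ℕ) (τ : ℕ) : ℤ := (∑ v ∈ bad D w, (- D.dem w v) % (τ : ℤ)) / τ

/-- the vertices of bad components whose net outflow is not divisible by `τ` -/
noncomputable def resBad (D : DG V A) (w : A → ℕ) (τ : ℕ) : Finset V :=
  (bad D w).filter fun v => ¬ (τ : ℤ) ∣ D.dem w v

/-- **The decomposition.**  Only the bad components count in the residue conditions. -/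
theorem decomposition_bad (D : DG V A) (w : A → ℕ) (τ : ℕ) (hτ : 2 ≤ τ)
    (hcut : ∀ U, D.IsShore U → τ ≤ D.wt w U)
    (h : rhoBad D w τ * (rhoBad D w τ - 2) ≤ τ ∨ 4 * (rhoBad D w τ - 2) ≤ τ ∨
      rhoBad' D w τ * (rhoBad' D w τ - 2) ≤ τ ∨ 4 * (rhoBad' D w τ - 2) ≤ τ ∨ (resBad D w τ).card ≤ τ + 3) :
    ∃ c c' : A → ℕ, (∀ a, w a = c a + c' a) ∧ (∀ U, D.IsShore U → 1 ≤ D.wt c U) ∧
      (∀ U, D.IsShore U → τ - 1 ≤ D.wt c' U) := by
  have hτ0 : (τ : ℤ) ≠ 0 := by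
    have : τ ≠ 0 := by omega
    exact_mod_cast this
  obtain ⟨r, hr1, hr2⟩ := exists_rep D w
  have hr : IsRep D w r := ⟨hr1, hr2⟩
  have e1 := rho_q D w hr τ (by omega)
  have e2 := rho_q' D w hr τ (by omega)
  have e3 := nres_q D w hr τ
  set Dq := qD D (cmap D w r) (cmap_idem D w hr) with hDq
  have hcutq : ∀ U, Dq.IsShore U → τ ≤ Dq.wt w U := by
    intro U hU
    rw [hDq, wt_q]
    exact hcut _ ((shore_q D _ _ U).1 hU)
  have f1 : Dq.rho w τ = rhoBad D w τ := by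
    rw [rhoBad, ← e1, Int.mul_ediv_cancel _ hτ0]
  have f2 : Dq.rev.rho w τ = rhoBad' D w τ := by
    rw [rhoBad', ← e2, Int.mul_ediv_cancel _ hτ0]
  have hex : ∃ c c' : A → ℕ, (∀ a, w a = c a + c' a) ∧ (∀ U, Dq.IsShore U → 1 ≤ Dq.wt c U) ∧
      (∀ U, Dq.IsShore U → τ - 1 ≤ Dq.wt c' U) := by
    by_cases hn : (resBad D w τ).card ≤ τ + 3
    · obtain ⟨c, c', h1, h3, h4, _⟩ := decomposition_card Dq w τ hτ hcutq (by rw [e3]; exact hn)
      exact ⟨c, c', h1, h3, fun U hU => by have := h4 U hU; omega⟩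
    · refine decomposition_sym Dq w τ hτ hcutq ?_
      rw [f1, f2]
      tauto
  obtain ⟨cs, cs', k1, k2, k3⟩ := hex
  exact combine D w τ hτ hcut hr cs cs' k1 k2 k3

/-- **Main theorem.**  Only the bad components count in the residue bounds. -/
theorem residue_bad (D : DG V A) (w : A → ℕ) (hC : (D.clutter w).MinNonPacking)
    (h2 : ∀ U, D.IsShore U → D.wt w U ≠ 2) :
    ∃ τ : ℕ, 3 ≤ τ ∧ (∀ U, D.IsShore U → τ ≤ D.wt w U) ∧ (∃ U, D.IsShore U ∧ D.wt w U = τ) ∧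
      (τ : ℤ) < rhoBad D w τ * (rhoBad D w τ - 2) ∧ (τ : ℤ) < 4 * (rhoBad D w τ - 2) ∧
      (τ : ℤ) < rhoBad' D w τ * (rhoBad' D w τ - 2) ∧ (τ : ℤ) < 4 * (rhoBad' D w τ - 2) ∧
      8 ≤ (resBad D w τ).card ∧ τ + 4 ≤ (resBad D w τ).card := by
  classical
  obtain ⟨⟨U1, hU1⟩, htwo⟩ := two_le_of_minNonPacking D w hC
  obtain ⟨U0, hU0, hmin⟩ := exists_min_image (univ.filter fun U => D.IsShore U) (D.wt w)
    ⟨U1, by rw [mem_filter]; exact ⟨mem_univ _, hU1⟩⟩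
  rw [mem_filter] at hU0
  set τ := D.wt w U0 with hτ
  have hτ3 : 3 ≤ τ := by
    have := htwo U0 hU0.2
    have := h2 U0 hU0.2
    omega
  have hτ0 : (τ : ℤ) ≠ 0 := by
    have : τ ≠ 0 := by omega
    exact_mod_cast this
  have hmin' : ∀ U, D.IsShore U → τ ≤ D.wt w U := fun U hU =>
    hmin U (by rw [mem_filter]; exact ⟨mem_univ _, hU⟩)
  have key : ¬ (rhoBad D w τ * (rhoBad D w τ - 2) ≤ τ ∨ 4 * (rhoBad D w τ - 2) ≤ τ ∨
      rhoBad' D w τ * (rhoBad' D w τ - 2) ≤ τ ∨ 4 * (rhoBad' D w τ - 2) ≤ τ ∨ (resBad D w τ).card ≤ τ + 3) := by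
    intro hcon
    obtain ⟨c, c', g1, g2, g3⟩ := decomposition_bad D w τ (by omega) hmin' hcon
    exact no_decomposition D w hC τ (by omega) hU0.2 hτ.symm c c' g1 g2 g3
  rw [not_or, not_or, not_or, not_or, not_le, not_le, not_le, not_le, not_le] at key
  obtain ⟨r1, r1', r2, r2', r3⟩ := key
  obtain ⟨r, hr1, hr2⟩ := exists_rep D w
  have hr : IsRep D w r := ⟨hr1, hr2⟩
  have e1 := rho_q D w hr τ (by omega)
  have e2 := rho_q' D w hr τ (by omega)
  have e3 := nres_q D w hr τ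
  set Dq := qD D (cmap D w r) (cmap_idem D w hr) with hDq
  have f1 : Dq.rho w τ = rhoBad D w τ := by
    rw [rhoBad, ← e1, Int.mul_ediv_cancel _ hτ0]
  have f2 : Dq.rev.rho w τ = rhoBad' D w τ := by
    rw [rhoBad', ← e2, Int.mul_ediv_cancel _ hτ0]
  have hc := card_eq_rho_add Dq w τ (by omega)
  have hnn : ∀ D' : DG {v : V // cmap D w r v = v} A, 0 ≤ D'.rho w τ := by
    intro D'
    rw [DG.rho]
    apply Int.ediv_nonneg
    · exact sum_nonneg fun v _ => Int.emod_nonneg _ hτ0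
    · omega
  have g : ∀ r : ℤ, 0 ≤ r → (τ : ℤ) < r * (r - 2) → 4 ≤ r := by
    intro r hr h
    by_contra hcon
    have : r ≤ 3 := by omega
    nlinarith
  have g1 := g _ (f1 ▸ hnn Dq) r1
  have g2 := g _ (f2 ▸ hnn Dq.rev) r2
  refine ⟨τ, hτ3, hmin', ⟨U0, hU0.2, rfl⟩, r1, r1', r2, r2', ?_, by omega⟩
  have : (8 : ℤ) ≤ ((resBad D w τ).card : ℤ) := by
    rw [resBad, ← e3, nres, hc, f1, f2]; linarith
  exact_mod_cast this

end Pool.Agent.helper52.ZA
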